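import Pool.Agent.Lib.MP_cf103f_co.Data

set_option autoImplicit false
set_option maxRecDepth 100000
set_option maxHeartbeats 4000000

namespace Pool.Agent.Lib.MP_cf103f_co

theorem sep3_ok : pairB ev3 tris sep3 = true := by decide +kernel

theorem sep4_ok : pairB ev4 tris sep4 = true := by decide +kernel

theorem sepF_ok : pairB ev3 faces sepF = true := by decide +kernel

theorem ind3_ok : indB ev3 tris ind3 = true := by decide +kernel

theorem ind4_ok : indB ev4 tris ind4 = true := by decide +kernel

/-- coordinate functions in space -/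
def coords3 : List (Vx → ℤ) := [fun v => (pos v).1, fun v => (pos v).2.1, fun v => (pos v).2.2]

/-- coordinate functions in the flat model -/
def coords4 : List (Vx → ℤ) := [fun v => (flat v).1, fun v => (flat v).2.1,
  fun v => (flat v).2.2.1, fun v => (flat v).2.2.2]

theorem cov3_ok : ∀ c ∈ cov3, (∀ x ∈ c.1, 0 ≤ ev3 c.2.1 x) ∧ c.2.2.length ≠ 0 ∧
    chainB tris coords3 c.1 (ev3 c.2.1) (c.2.2.map (fun s => (s.1, ev3 s.2))) = true := by
  decide +kernel

theorem cov4_ok : ∀ c ∈ cov4, (∀ x ∈ c.1, 0 ≤ ev4 c.2.1 x) ∧ c.2.2.length ≠ 0 ∧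
    chainB tris coords4 c.1 (ev4 c.2.1) (c.2.2.map (fun s => (s.1, ev4 s.2))) = true := by
  decide +kernel

theorem cov3_fst : cov3.map Prod.fst = faces := by decide +kernel

/-- every triangle is contained in a face -/
theorem tris_sub : ∀ t ∈ tris, ∃ f ∈ faces, ∀ v ∈ t, v ∈ f := by decide +kernel

end Pool.Agent.Lib.MP_cf103f_co
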