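import Pool.Agent.Lib.MP_cf103f_co.Generic

set_option autoImplicit false
set_option maxRecDepth 100000
set_option maxHeartbeats 4000000

/-!
Integer data of the polyhedral torus: 19 vertices, 17 convex faces, a triangulation of the faces
with 38 triangles, positions of the vertices in a flat model torus, and separation certificates.
-/

namespace Pool.Agent.Lib.MP_cf103f_co

/-- vertex labels -/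
abbrev Vx : Type := Fin 19

/-- integer coordinates of the 19 vertices in space -/
def posL : List (ℤ × ℤ × ℤ) := [
  (6, 2, 0), (1, 0, 0), (6, 2, -26), (1, 0, -6), (3, 11, -2),
  (0, 17, -2), (3, 11, -47), (0, 17, -56), (0, 0, 0), (0, 0, -4),
  (5, 5, 0), (5, 5, -39), (-12, 4, 0), (-7, 2, 0), (18, -44, 23),
  (18, -46, 25), (0, 16, -1), (0, 15, -54), (-47, 46, -4)]

/-- integer coordinates of the 19 vertices in the flat model -/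
def flatL : List (ℤ × ℤ × ℤ × ℤ) := [
  (6, 0, 4, 2), (6, 0, 2, 4), (-6, -6, 4, 2), (-6, -6, 2, 4),
  (6, 0, 2, -2), (6, 0, -2, -4), (-6, -6, 2, -2), (-6, -6, -2, -4),
  (6, 0, 0, 6), (-6, -6, 0, 6), (6, 0, 6, 0), (-6, -6, 6, 0),
  (0, 6, 6, 0), (0, 6, 0, 6), (0, 6, 0, -3), (0, 6, -6, -6),
  (6, 0, -6, -6), (-6, -6, -6, -6), (0, 6, -3, 0)]

/-- coordinates of a vertex -/
def pos (v : Vx) : ℤ × ℤ × ℤ := posL.getD v.1 (0, 0, 0)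

/-- flat coordinates of a vertex -/
def flat (v : Vx) : ℤ × ℤ × ℤ × ℤ := flatL.getD v.1 (0, 0, 0, 0)

/-- affine integer functional in space -/
def ev3 (f : ℤ × ℤ × ℤ × ℤ) (v : Vx) : ℤ :=
  f.1 * (pos v).1 + f.2.1 * (pos v).2.1 + f.2.2.1 * (pos v).2.2 + f.2.2.2

/-- affine integer functional in the flat model -/
def ev4 (f : ℤ × ℤ × ℤ × ℤ × ℤ) (v : Vx) : ℤ :=
  f.1 * (flat v).1 + f.2.1 * (flat v).2.1 + f.2.2.1 * (flat v).2.2.1 + f.2.2.2.1 * (flat v).2.2.2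
    + f.2.2.2.2

/-- the 17 faces -/
def faces : List (List Vx) := [
  [10, 4, 6, 11, 2, 0], [1, 8, 9, 3], [16, 8, 9, 17, 7, 5], [12, 10, 0, 1, 8, 13],
  [12, 11, 2, 3, 9, 13], [14, 10, 4, 5, 16, 15], [14, 11, 6, 7, 17, 15], [0, 1, 3, 2],
  [4, 5, 7, 6], [10, 12, 14], [11, 12, 14], [16, 8, 13],
  [13, 9, 17], [13, 17, 18], [17, 15, 18], [15, 16, 18],
  [16, 13, 18]]

/-- the 38 triangles -/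
def tris : List (List Vx) := [
  [10, 4, 6], [10, 6, 11], [10, 11, 2], [10, 2, 0], [1, 8, 9], [1, 9, 3], [16, 8, 9], [16, 9, 17],
  [16, 17, 7], [16, 7, 5], [12, 10, 0], [12, 0, 1], [12, 1, 8], [12, 8, 13], [12, 11, 2], [12, 2, 3],
  [12, 3, 9], [12, 9, 13], [14, 10, 4], [14, 4, 5], [14, 5, 16], [14, 16, 15], [14, 11, 6], [14, 6, 7],
  [14, 7, 17], [14, 17, 15], [0, 1, 3], [0, 3, 2], [4, 5, 7], [4, 7, 6], [10, 12, 14], [11, 12, 14],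
  [16, 8, 13], [13, 9, 17], [13, 17, 18], [17, 15, 18], [15, 16, 18], [16, 13, 18]]

/-- planes of the faces -/
def normals : List (ℤ × ℤ × ℤ × ℤ) := [
  (-3, -1, 0, 20), (0, -1, 0, 0), (1, 0, 0, 0), (0, 0, -1, 0),
  (-2, -5, -1, -4), (2, 1, 1, -15), (-1, 1, 1, 39), (2, -5, 0, -2),
  (-2, -1, 0, 17), (-23, 391, 846, -1840), (1849, 1561, 846, 15944), (-2, -7, -112, 0),
  (32, 70, 21, 84), (581, 547, 207, 2973), (-5499, -4613, -2309, -55491), (297, 584, 1187, -8157),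
  (3, -17, -217, 55)]

/-- row 0 of sep3 -/
def sep3_0 : List (ℤ × ℤ × ℤ × ℤ) := [(47, -47, -8, 0), (6, -6, -1, 0), (1, -1, 0, 0), (0, -1, 0, 1), (0, -1, 0, 1), (-1, 0, 0, 1), (-1, 0, 0, 1), (-5, 1, 0, 0), (-5, 1, 0, 0), (0, -1, 0, 5), (0, -3, 0, 14), (-1, -1, 1, 2), (-1, 0, 0, 1), (-2, -4, -1, 0), (-2, -4, -1, 0), (-1, -1, 0, 2), (-1, -1, 0, 4), (-1, 1, 4, 0), (-2, 2, 7, -2), (-2, 1, 4, 0), (-2, 1, 4, 0), (-1, -4, -1, 0), (-13, -9, -3, -3), (-5, -3, -1, 0), (-5, -3, -1, 0), (1, -2, 0, 2), (1, -2, 0, 0), (-38, 12, 3, -12), (-10, 3, 0, -3), (0, -1, 0, 5), (-2, -4, -1, 0), (-1, 0, 0, 1), (-1, 0, 0, 1), (-17, 0, -1, 0), (-5, -3, -1, 0), (-2, 1, 4, 0), (-4, 1, 0, 0)]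

/-- row 1 of sep3 -/
def sep3_1 : List (ℤ × ℤ × ℤ × ℤ) := [(1, -1, 0, 0), (7, -7, 1, 0), (0, -1, 0, 1), (0, -1, 0, 1), (-1, 0, 0, 1), (-1, 0, 0, 1), (-5, 1, 0, 0), (-5, 1, 0, 0), (0, -1, 1, 5), (0, -3, 0, 14), (-1, 0, 1, 2), (-1, 0, 1, 1), (-18, -29, -5, 40), (0, -3, 0, 14), (-1, -2, 0, 6), (-1, -1, 0, 4), (-1, 1, 3, 0), (-4, 3, 10, 0), (-2, 1, 4, 0), (-2, 1, 4, 0), (-47, -29, -10, -10), (-62, -33, -12, -15), (-5, -3, -1, 0), (-5, -3, -1, 0), (1, -2, 0, 2), (1, -2, 0, 2), (-8, 4, 1, 0), (-9, 7, 1, -3), (0, -1, 1, 5), (-19, -19, -5, -5), (-1, 0, 0, 1), (-1, 0, 0, 1), (-17, 0, -1, 0), (-5, -3, -1, 0), (-2, 1, 4, 0), (-2, 1, 1, 0)]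

/-- row 2 of sep3 -/
def sep3_2 : List (ℤ × ℤ × ℤ × ℤ) := [(13, -13, 2, 0), (-1, 0, 0, 3), (-1, 0, 0, 2), (-1, 0, 0, 1), (-1, 0, 0, 1), (-2, 1, 0, 0), (-2, 1, 0, 0), (0, -1, 1, 5), (-1, -3, 1, 14), (-1, 0, 1, 2), (-1, 0, 0, 1), (-13, -26, -5, 0), (-1, -3, 0, 12), (-1, 0, 0, 2), (-1, 0, 0, 1), (-1, 1, 3, 0), (-4, 3, 10, 0), (-2, 1, 4, 0), (-2, 1, 4, 0), (-24, -14, -5, -5), (-31, -16, -6, 0), (-5, -3, -1, 0), (-5, -3, -1, 0), (0, -2, 1, 7), (20, -21, 3, 0), (-2, 1, 0, 0), (-2, 1, 0, 0), (-1, 0, 1, 5), (-19, -19, -5, -5), (-1, 0, 0, 1), (-1, 0, 0, 1), (-2, 1, 0, 0), (-5, -3, -1, 0), (-2, 1, 4, 0), (-2, 1, 0, 0)]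

/-- row 3 of sep3 -/
def sep3_3 : List (ℤ × ℤ × ℤ × ℤ) := [(-1, 0, 0, 2), (-1, 0, 0, 2), (-1, 0, 0, 1), (-1, 0, 0, 1), (-2, 1, 0, 0), (-2, 1, 0, 0), (-3, -1, 1, 20), (-1, -3, 1, 12), (-1, 0, 0, 2), (-1, 0, 0, 1), (-4, -1, -1, 0), (-4, -1, -1, 0), (-1, 0, 0, 2), (-1, 0, 0, 1), (-1, 1, 3, 0), (-4, 3, 10, 0), (-2, 1, 4, 0), (-2, 1, 4, 0), (-8, -5, -2, 0), (-8, -5, -2, 0), (-5, -3, -1, 0), (-5, -3, -1, 0), (-1, -3, 1, 12), (0, -1, 0, 2), (-2, 1, 0, 0), (-2, 1, 0, 0), (-1, 1, 3, 0), (-8, -5, -2, 0), (-1, 0, 0, 1), (-1, 0, 0, 1), (-2, 1, 0, 0), (-5, -3, -1, 0), (-2, 1, 4, 0), (-2, 1, 0, 0)]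

/-- row 4 of sep3 -/
def sep3_4 : List (ℤ × ℤ × ℤ × ℤ) := [(4, 0, -1, -4), (-1, 1, 0, 0), (0, 1, -1, -4), (0, 1, 0, -1), (0, 1, 0, -1), (0, 1, 0, -1), (1, 4, 0, -1), (0, 1, 1, 0), (-1, 0, 1, 0), (0, 1, 0, -1), (0, 2, -1, -5), (-1, 0, -1, -4), (-1, 0, -1, -4), (1, 0, 0, -2), (0, 1, 2, -1), (0, 1, 2, -1), (0, 1, 2, -1), (1, 0, 0, -2), (2, 0, -1, -5), (2, 0, -1, -5), (3, 0, -1, -5), (5, 0, -1, -5), (3, 0, -1, -5), (0, 1, 0, -1), (0, 1, 0, -1), (0, 1, 2, -1), (-2, -2, -1, -6), (-1, 1, 1, 0), (-1, 0, -1, -4), (0, 1, 0, -1), (-2, -2, -1, -5), (0, 1, 2, -1), (0, 1, 0, -1)]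

/-- row 5 of sep3 -/
def sep3_5 : List (ℤ × ℤ × ℤ × ℤ) := [(-5, 0, 1, 4), (-2, 1, 0, 0), (0, 1, 0, -1), (0, 1, 0, -1), (0, 1, 0, -1), (0, 1, 1, 0), (-1, 0, 1, 1), (-2, 0, 1, 1), (0, 1, 0, -1), (-1, 0, -1, -5), (-2, 0, -1, -4), (-1, 0, 0, 0), (1, 0, 0, -2), (0, 1, 2, -1), (0, 1, 2, -1), (0, 1, 2, -1), (0, -1, -1, -7), (0, -1, -1, -7), (0, -1, -1, -7), (0, -1, -1, -7), (1, 0, 0, -1), (2, 0, -1, -8), (0, 1, 0, -1), (0, 1, 0, -1), (0, 1, 2, -1), (-2, -2, -1, -7), (-2, 1, 1, 1), (-3, 0, -1, -4), (-1, 1, 0, -2), (-2, -2, -1, -5), (0, 1, 2, -1), (-1, 1, 1, 0)]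

/-- row 6 of sep3 -/
def sep3_6 : List (ℤ × ℤ × ℤ × ℤ) := [(0, 3, -16, -64), (0, 1, -4, -20), (0, 1, 0, -16), (0, 1, 17, -1), (2, 7, 113, -1), (1, 4, 70, 0), (-1, 0, 1, 0), (-1, 0, -1, -5), (-1, 0, -2, -10), (-1, 0, -1, -4), (-1, 0, -1, -4), (1, 0, 0, -1), (11, 1, -5, -24), (4, 1, 0, -16), (0, 1, 8, -8), (1, 0, 0, -1), (2, 0, -1, -5), (2, 0, -1, -5), (2, 0, -1, -5), (2, 0, 0, -1), (2, 0, 0, -1), (2, 1, -5, -22), (4, 0, -1, -5), (0, 1, 15, -2), (-2, -2, -1, -6), (-5, 1, 16, 0), (-1, 0, -1, -4), (-1, 0, -1, -5), (-2, -2, -1, -5), (0, 1, 8, -8), (-3, 1, 0, -16)]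

/-- row 7 of sep3 -/
def sep3_7 : List (ℤ × ℤ × ℤ × ℤ) := [(0, 53, -1, -849), (0, 1, 0, -16), (0, -1, 2, 6), (0, -1, 2, 5), (-1, -1, 1, 2), (-1, -1, 1, 1), (-2, -4, -1, -5), (-12, -27, -8, -35), (-5, -11, -3, -12), (-1, -1, 0, 0), (1, 0, 1, 0), (21, 6, 0, -100), (4, 1, 0, -16), (0, 1, 16, 0), (1, 0, 0, -1), (21, 6, 0, -100), (32, 7, -1, -159), (0, -16, -5, -30), (7, 0, 1, 0), (7, 0, 1, 0), (6, 3, 0, -49), (7, 3, 0, -49), (0, -1, 2, 6), (-2, -4, -1, -5), (0, 0, 1, 1), (-5, -10, -3, -12), (-19, -16, -5, -30), (-19, -16, -5, -30), (-1, 1, 16, 0), (-1, 0, 8, 8)]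

/-- row 8 of sep3 -/
def sep3_8 : List (ℤ × ℤ × ℤ × ℤ) := [(0, 55, 1, -879), (0, -1, 0, 6), (0, -1, 0, 5), (-1, -1, 1, 2), (-1, -1, 0, 1), (-2, -4, -1, 0), (-2, -4, -1, 0), (-1, -1, 0, 2), (-1, -1, 0, 1), (4, -1, 0, 0), (47, 14, 1, -229), (28, 9, 8, -136), (0, 1, 16, 0), (5, -1, 0, 0), (4, 1, 0, -17), (2, -1, -1, -39), (0, -1, 0, 15), (1, -1, 0, 0), (1, -1, 0, 0), (1904, 979, 17, -15691), (3, 1, 0, -17), (0, -1, 0, 6), (-2, -4, -1, 0), (0, 0, 1, 1), (0, -1, 0, 15), (-1, -1, 0, 15), (-1, -1, 0, 15), (-3, 1, 16, 0), (-1, 1, 16, 0)]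

/-- row 9 of sep3 -/
def sep3_9 : List (ℤ × ℤ × ℤ × ℤ) := [(0, -1, 0, 6), (0, -1, 0, 5), (-1, -1, 1, 2), (-1, -1, 0, 1), (-2, -4, -1, 0), (-2, -4, -1, 0), (-1, -1, 0, 3), (-1, -1, 0, 1), (4, -1, 0, 0), (56, 18, 17, -272), (3, 1, 1, -15), (0, 0, 1, 1), (5, -1, 0, 0), (0, -56, -17, 0), (0, -56, -17, 0), (0, -7, -2, 0), (1, -1, 0, 0), (1, -1, 0, 0), (3, 1, 0, -17), (0, -156, -17, 1700), (0, -1, 0, 6), (-2, -4, -1, 0), (0, 0, 1, 1), (-3, -7, -2, 0), (-17, -17, -5, 0), (-17, -17, -5, 0), (-1, 1, 16, 0), (-1, 1, 16, 0)]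

/-- row 10 of sep3 -/
def sep3_10 : List (ℤ × ℤ × ℤ × ℤ) := [(-1, -9, 0, 24), (-1, -6, 0, 12), (-1, -6, 0, 12), (-1, 0, -1, -12), (-1, -3, -1, 0), (-1, 0, -4, -12), (-1, -3, -1, 0), (0, 2, 5, -10), (0, 2, 5, -11), (0, 1, 3, -7), (0, 1, 3, -7), (0, -1, -1, 0), (0, -1, -1, 0), (0, -1, -1, 0), (0, -1, -1, 0), (0, -1, 0, 2), (1, -3, -1, 0), (0, 0, -1, -1), (0, 0, -1, -1), (-1, 17, 39, -80), (-1, -3, -1, 0), (-1, -7, -100, 13), (-1, -7, -2, 14), (-1, -6, -56, 11), (-7, -6, -3, -63), (0, 1, 3, -7), (-1, -7, -100, 13)]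

/-- row 11 of sep3 -/
def sep3_11 : List (ℤ × ℤ × ℤ × ℤ) := [(-4, -13, 0, 4), (-13, -42, 0, 12), (-1, 0, -1, -12), (-1, 0, -3, -12), (-1, 0, -4, -12), (-1, -3, -1, 0), (0, 3, 7, -14), (0, 2, 5, -10), (0, 1, 3, -5), (0, 1, 3, -6), (0, -1, -1, -1), (0, -1, -1, -1), (0, -1, -1, -1), (0, -1, -1, -1), (2, -5, -4, -2), (1, 0, -1, -6), (0, 1, 0, -5), (0, 1, 0, -5), (0, 3, 7, -12), (-1, -3, -1, 0), (-2, -7, -113, 1), (-2, -7, -2, 1), (-4, -13, -113, 3), (-7, -6, -3, -63), (0, 1, 3, -6), (-2, -7, -113, 1)]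

/-- row 12 of sep3 -/
def sep3_12 : List (ℤ × ℤ × ℤ × ℤ) := [(-1, -3, 0, 0), (-1, 0, -1, -12), (-1, 0, -3, -12), (-1, 0, -4, -12), (-7, -18, -4, -12), (1, 0, 0, -2), (1, 1, 2, -2), (1, 1, 2, -2), (1, 1, 2, -2), (0, -1, -1, -1), (0, -1, -1, -1), (0, -1, -1, -1), (0, -1, -1, -1), (1, 0, -1, -1), (1, 0, -1, -2), (1, 1, -1, -2), (1, 1, -1, -2), (0, 3, 7, -12), (-2, -3, -1, -12), (-5, -16, -257, 0), (-2, -6, -2, -1), (-2, -6, -49, -1), (-7, -6, -3, -63), (1, 2, 4, -2), (-2, -6, -100, -1)]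

/-- row 13 of sep3 -/
def sep3_13 : List (ℤ × ℤ × ℤ × ℤ) := [(-1, 0, -1, -12), (-1, 0, -3, -12), (-1, 0, -4, -12), (-2, -5, -2, -4), (1, 0, 0, -1), (3, 1, 0, -1), (3, 1, 0, -1), (1, 1, 2, -1), (0, -1, -1, -1), (0, -1, -1, -1), (0, -1, -1, -1), (0, -1, -1, -1), (2, 0, 0, -1), (1, 0, -1, -1), (1, 1, 0, -1), (1, 0, -1, -1), (0, 3, 7, -12), (-2, -3, -1, -12), (-2, -7, -113, 0), (-5, -14, -5, -7), (-5, -14, -113, -7), (-7, -6, -3, -63), (1, 2, 4, -1), (-5, -14, -257, -7)]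

/-- row 14 of sep3 -/
def sep3_14 : List (ℤ × ℤ × ℤ × ℤ) := [(-1, -9, 0, 24), (1, 0, 1, 12), (1, 0, 1, 12), (1, 0, 1, 0), (2, 1, 1, 0), (2, 1, 1, 0), (2, 1, 1, 0), (-10, -9, -5, -100), (-33, -28, -15, -289), (-4, -4, -2, -39), (-2, -2, -1, -22), (0, -3, 1, 7), (3, 1, 1, 6), (2, 4, 1, 0), (2, 4, 1, 0), (1, 0, 1, 12), (-41, -83, -20, -160), (1, 0, 1, 8), (5, 10, 3, 17), (5, 10, 3, 17), (-7, -6, -3, -63), (1, 2, 3, 0), (1, 1, 1, 6)]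

/-- row 15 of sep3 -/
def sep3_15 : List (ℤ × ℤ × ℤ × ℤ) := [(-2, -8, 1, 8), (2, 0, 5, 24), (1, 0, 1, 0), (1, 1, 2, 0), (1, 1, 2, 0), (1, 1, 2, 0), (-2, -2, -1, -17), (-2, -2, -1, -17), (-1, -2, -1, -17), (-1, -2, -1, -17), (3, 0, 1, 3), (4, 0, 1, 2), (2, 4, 1, 0), (2, 4, 1, 0), (1, 3, 5, 0), (-2, -3, -1, -12), (1, 0, 2, 8), (12, 27, 8, 35), (14, 32, 9, 39), (-7, -6, -3, -63), (1, 2, 3, 0), (3, 4, 4, 19)]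

/-- row 16 of sep3 -/
def sep3_16 : List (ℤ × ℤ × ℤ × ℤ) := [(1, 0, 3, 12), (1, 0, 1, 0), (1, 1, 2, 0), (1, 1, 2, 0), (1, 1, 2, 0), (0, -1, -1, -7), (0, -1, -1, -7), (0, -1, -1, -7), (0, -1, -1, -7), (3, 0, 1, 3), (1, 0, 0, -1), (1, 1, 0, -3), (1, 1, 0, -2), (1, 3, 5, 0), (-2, -3, -1, -12), (1, 0, 3, 8), (12, 27, 8, 32), (6, 14, 4, 15), (-7, -6, -3, -63), (1, 2, 3, 0), (3, 4, 5, 17)]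

/-- row 17 of sep3 -/
def sep3_17 : List (ℤ × ℤ × ℤ × ℤ) := [(1, 0, 1, 0), (1, 1, 2, 0), (1, 1, 2, 0), (1, 1, 2, 0), (1, 0, 0, -1), (2, 0, -1, -5), (2, 0, -1, -5), (3, 0, -1, -5), (7, 0, 1, 0), (7, 0, 1, 0), (1, 1, 0, -1), (0, 1, 0, -5), (1, 3, 5, 0), (-2, -3, -1, -12), (1, 0, 2, 7), (12, 28, 7, 28), (3, 7, 2, 7), (-7, -6, -3, -63), (1, 2, 3, 0), (3, 7, 2, 7)]

/-- row 18 of sep3 -/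
def sep3_18 : List (ℤ × ℤ × ℤ × ℤ) := [(-11, 7, 22, 0), (-8, 3, 12, 0), (-8, 3, 12, 0), (-7, -6, -6, 0), (-7, -6, -6, 0), (-7, -6, -6, 0), (-10, -3, 0, 48), (1, -2, -5, 3), (1, -2, -5, 0), (-2, 0, -3, 0), (-2, 0, -3, 0), (-13, -18, -31, 155), (-7, -6, -6, 0), (-1, 0, 0, 1), (-1, 0, -1, 0), (-1, 0, -1, 0), (-15, -7, -2, 0), (-8, 1, 8, 0), (-4, 1, 0, 0)]

/-- row 19 of sep3 -/
def sep3_19 : List (ℤ × ℤ × ℤ × ℤ) := [(-101, 12, 102, 0), (-31, 3, 30, 0), (-7, -6, -6, 0), (-7, -6, -6, 0), (-7, -6, -6, 0), (-10, -3, 0, 48), (0, -1, -3, 3), (1, -1, -3, 0), (-4, -2, -17, 0), (2, -3, -12, 3), (8, -81, -180, 432), (-7, -6, -6, 0), (-12, 1, 11, 1), (-1, -1, -2, 0), (-2, -1, -1, 0), (-15, -7, -2, 0), (-11, 1, 10, 0), (-10, 1, 9, 0)]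

/-- row 20 of sep3 -/
def sep3_20 : List (ℤ × ℤ × ℤ × ℤ) := [(-18, 1, 16, 0), (-7, -6, -6, 0), (-7, -6, -6, 0), (-7, -6, -6, 0), (-65, -36, -18, 0), (1, -1, -3, 0), (1, -1, -3, 0), (0, -2, -17, 0), (2, -1, -4, 0), (-1, -3, -6, 24), (-7, -6, -6, 0), (-11, 0, 8, 8), (-1, -1, -2, 0), (-2, -1, -1, 0), (-15, -7, -2, 0), (0, 13, 32, -176), (-10, 5, 16, -64)]

/-- row 21 of sep3 -/
def sep3_21 : List (ℤ × ℤ × ℤ × ℤ) := [(1, -9, -18, 0), (1, -9, -18, 0), (1, -9, -18, 0), (-7, -6, -6, 0), (1, -1, -3, 0), (1, -1, -3, 0), (0, -1, -10, 0), (2, -1, -4, 0), (-1, -3, -6, 24), (-1, -9, -18, 36), (0, -1, -8, 8), (-1, -1, -2, 0), (-2, -1, -1, 0), (-67, -36, -18, 0), (-59, 3, 48, 0), (-1, 0, 0, 0)]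

/-- row 22 of sep3 -/
def sep3_22 : List (ℤ × ℤ × ℤ × ℤ) := [(-121, -61, -22, 0), (-109, -54, -18, 0), (-10, -3, 0, 48), (0, 1, 1, 7), (3, 2, 1, 7), (-7, 4, 1, 0), (1, 4, 1, 0), (-1, 9, 18, 0), (621, 557, 310, 6200), (0, 1, 1, 1), (-1, 0, 0, 1), (-17, 0, -1, 0), (-15, -7, -2, 0), (-8, 1, 8, 0), (0, 1, 1, 0)]

/-- row 23 of sep3 -/
def sep3_23 : List (ℤ × ℤ × ℤ × ℤ) := [(-691, -336, -102, 0), (-10, -3, 0, 48), (0, 1, 1, 7), (3, 2, 1, 8), (0, 56, 17, 0), (59, 55, 17, 17), (-1, 9, 18, 0), (64, 55, 30, 578), (0, 1, 1, 1), (-15, -7, -2, 0), (-15, -7, -2, 0), (-15, -7, -2, 0), (-8, 1, 8, 0), (0, 1, 1, 0)]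

/-- row 24 of sep3 -/
def sep3_24 : List (ℤ × ℤ × ℤ × ℤ) := [(-103, -51, -15, -45), (0, 1, 1, 7), (4, 3, 1, 4), (0, 56, 17, 0), (3, 1, 0, -17), (-1, 9, 18, 0), (53, 45, 24, 474), (0, 1, 1, 1), (-4, -1, 0, 15), (-4, -1, 0, 15), (-39, -18, -5, 0), (-8, 1, 8, 0), (0, 1, 1, 0)]

/-- row 25 of sep3 -/
def sep3_25 : List (ℤ × ℤ × ℤ × ℤ) := [(0, 1, 1, 7), (4, 3, 1, 4), (0, 7, 2, 0), (8, 7, 2, 0), (29, 27, 18, 252), (43, 36, 18, 396), (0, 1, 1, 1), (0, 16, 5, 30), (-1, 0, 0, 0), (-107, -51, -15, -45), (-1, 3, 6, 6), (0, 1, 1, 0)]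

/-- row 26 of sep3 -/
def sep3_26 : List (ℤ × ℤ × ℤ × ℤ) := [(0, 3, -1, -6), (-1, 1, 0, 0), (-1, 1, 0, 0), (-1, 2, 5, -3), (-2, -2, -1, -7), (-2, 0, 0, 1), (-7, 0, -1, 0), (-1, 1, 0, 0), (-2, -2, -1, -5), (-1, 1, 3, 0), (-1, 1, 0, 0)]

/-- row 27 of sep3 -/
def sep3_27 : List (ℤ × ℤ × ℤ × ℤ) := [(-1, 1, 0, 0), (-1, 1, 0, 0), (-1, 2, 5, 0), (-3, -2, -1, -7), (-1, 1, 1, 1), (-7, 0, -1, 0), (-1, 1, 0, 0), (-4, -3, -1, -4), (-1, 1, 3, 0), (-1, 1, 1, 0)]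

/-- row 28 of sep3 -/
def sep3_28 : List (ℤ × ℤ × ℤ × ℤ) := [(192, -57, -17, 17), (0, 0, 1, 1), (-2, -4, -1, 0), (0, 1, 10, 1), (-3, -7, -2, 0), (-17, -17, -5, 0), (-17, -17, -5, 0), (0, 1, 10, 0), (0, 1, 10, 0)]

/-- row 29 of sep3 -/
def sep3_29 : List (ℤ × ℤ × ℤ × ℤ) := [(0, 1, 6, 0), (-2, -4, -1, 0), (-4, 1, 1, 1), (-8, -7, -2, 0), (-8, -7, -2, 0), (-8, -7, -2, 0), (-2, 1, 4, 0), (-4, 1, 1, 0)]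

/-- row 30 of sep3 -/
def sep3_30 : List (ℤ × ℤ × ℤ × ℤ) := [(-23, -69, -114, 0), (0, -2, -27, 7), (0, -3, -7, 11), (0, -1, -11, 3), (-12, -10, -5, -113), (-1, 9, 20, -56), (0, -2, -27, 7)]

/-- row 31 of sep3 -/
def sep3_31 : List (ℤ × ℤ × ℤ × ℤ) := [(2, 2, 1, 11), (2, 3, 1, 10), (2, 3, 1, 10), (-12, -10, -5, -113), (1, 2, 3, 0), (2, 2, 1, 11)]

/-- row 32 of sep3 -/
def sep3_32 : List (ℤ × ℤ × ℤ × ℤ) := [(-1, 0, -2, -7), (-1, 0, -1, -7), (-5, -4, -2, -31), (0, 1, 8, -8), (-2, 1, 0, -16)]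

/-- row 33 of sep3 -/
def sep3_33 : List (ℤ × ℤ × ℤ × ℤ) := [(-13, 7, 0, -105), (-14, -13, -5, -75), (1, 2, 3, 0), (2, 7, 2, 0)]

/-- row 34 of sep3 -/
def sep3_34 : List (ℤ × ℤ × ℤ × ℤ) := [(-653, -611, -235, -3525), (38, 47, 94, 0), (2, 7, 57, 0)]

/-- row 35 of sep3 -/
def sep3_35 : List (ℤ × ℤ × ℤ × ℤ) := [(966, 1103, 1334, 0), (99, 94, 47, 517)]

/-- row 36 of sep3 -/
def sep3_36 : List (ℤ × ℤ × ℤ × ℤ) := [(-6, -47, -376, 376)]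

/-- row 37 of sep3 -/
def sep3_37 : List (ℤ × ℤ × ℤ × ℤ) := []

/-- separating functionals of the triangles in space -/
def sep3 : List (List (ℤ × ℤ × ℤ × ℤ)) := [
  sep3_0, sep3_1, sep3_2, sep3_3, sep3_4, sep3_5, sep3_6, sep3_7,
  sep3_8, sep3_9, sep3_10, sep3_11, sep3_12, sep3_13, sep3_14, sep3_15,
  sep3_16, sep3_17, sep3_18, sep3_19, sep3_20, sep3_21, sep3_22, sep3_23,
  sep3_24, sep3_25, sep3_26, sep3_27, sep3_28, sep3_29, sep3_30, sep3_31,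
  sep3_32, sep3_33, sep3_34, sep3_35, sep3_36, sep3_37]

/-- row 0 of sep4 -/
def sep4_0 : List (ℤ × ℤ × ℤ × ℤ × ℤ) := [(-3, 4, 3, 0, 0), (-1, 0, 1, 5, 0), (0, 0, 0, 1, 0), (0, 0, -1, 1, 0), (0, 0, -1, 1, 0), (0, 0, -2, 1, 0), (0, 0, -2, 1, 0), (0, 0, -1, 0, 0), (0, 0, -1, 0, 0), (0, 1, 0, 1, 0), (-1, 1, 0, 4, 0), (-1, 1, 0, 2, 0), (-1, 1, 0, 2, 0), (-2, 1, 0, 7, 0), (-1, 1, 0, 2, 0), (-1, 1, 0, 1, 0), (-1, 1, 0, 1, 0), (0, 1, 0, 0, 0), (1, 1, -3, 0, 0), (0, 1, -2, 0, 0), (0, 1, -1, 0, 0), (-1, 1, 1, 0, -2), (-2, 1, -3, 0, 0), (0, 1, -2, -1, 0), (-1, 1, -2, 0, 0), (0, 0, -1, 3, 0), (0, 0, -1, 3, 0), (1, 0, -6, 0, 6), (1, -2, -3, 0, 0), (0, 1, 0, 1, 0), (-2, 2, 1, 2, 0), (0, 0, -2, 1, 0), (0, 0, -2, 1, 0), (-1, 1, -2, 0, 0), (0, 0, -1, 0, 0), (0, 0, -1, 0, 0), (0,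 1, -1, 0, 0)]

/-- row 1 of sep4 -/
def sep4_1 : List (ℤ × ℤ × ℤ × ℤ × ℤ) := [(0, 0, 0, 1, 0), (1, 0, -1, 6, 0), (0, 0, -1, 1, 0), (0, 0, -1, 1, 0), (0, 0, -2, 1, 0), (0, 0, -2, 1, 0), (0, 0, -1, 0, 0), (0, 0, -1, 0, 0), (0, 1, 0, 1, 0), (-1, 2, 0, 7, 0), (-1, 2, 0, 3, 0), (-1, 2, 0, 2, 0), (-1, 1, 0, 1, 0), (-1, 2, 0, 7, 0), (-1, 2, 0, 3, 0), (-1, 2, 0, 2, 0), (1, 1, -1, 0, 0), (1, 0, -2, -2, 0), (0, 1, -1, -1, 0), (0, 1, -1, 0, 0), (-1, 1, 0, 0, 0), (0, 0, -1, 0, 2), (0, 0, -2, -1, 0), (0, 1, -1, -1, 0), (0, 0, -1, 3, 0), (0, 0, -1, 3, 0), (1, 0, -2, -2, 0), (1, 0, -3, -6, 0), (0, 1, 0, 0, 0), (-2, 2, 1, 0, -6), (0, 0, -2, 1, 0), (0, 0, -2, 1, 0), (-1, 1, -2, 0, 0), (0, 0, -1, 0, 0), (0, 0, -1, 0, 0), (0, 1, -1, 0, 0)]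

/-- row 2 of sep4 -/
def sep4_2 : List (ℤ × ℤ × ℤ × ℤ × ℤ) := [(0, 1, 0, 3, 0), (0, 0, -1, 1, 0), (0, 0, -1, 1, 0), (0, 0, -2, 1, 0), (0, 0, -2, 1, 0), (0, 0, -1, -1, 0), (0, 0, -1, -1, 0), (0, 1, 0, 1, 0), (0, 2, -1, 4, 0), (0, 2, -1, 2, 0), (0, 2, -1, 2, 0), (-1, 1, 0, 0, 0), (-1, 2, 0, 3, 0), (0, 2, -1, 4, 0), (0, 2, -1, 3, 0), (1, 0, -1, -1, 0), (1, 0, -2, -2, 0), (0, 0, -1, -1, 0), (0, 1, -1, 0, 0), (-1, 1, 0, -1, 0), (0, 0, -1, -2, 0), (0, 0, -1, -1, 0), (0, 1, -1, -1, 0), (1, 0, -2, 3, 0), (1, -1, -3, 6, 0), (1, 0, -2, -2, 0), (0, 0, -1, -2, 0), (0, 1, 0, 0, 0), (-1, 1, 0, -1, 0), (0, 0, -2, 1, 0), (0, 0, -2, 1, 0), (-1, 1, -1, 0, 0), (0, 0, -1, 0, 0), (0, 0, -1, 0, 0), (0, 1, -1, 0, 0)]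

/-- row 3 of sep4 -/
def sep4_3 : List (ℤ × ℤ × ℤ × ℤ × ℤ) := [(0, 0, -1, 1, 0), (0, 0, -1, 1, 0), (0, 0, -2, 1, 0), (0, 0, -2, 1, 0), (0, 0, -1, -1, 0), (0, 0, -1, -1, 0), (0, 1, 0, 0, 0), (-1, 3, 0, 3, 0), (-1, 2, -1, 3, 0), (-1, 2, -1, 2, 0), (-2, 1, 0, -3, 0), (-2, 3, 0, 3, 0), (-1, 2, -1, 3, 0), (-1, 2, -1, 2, 0), (0, 0, 0, -1, 0), (1, 0, -2, -2, 0), (0, 0, -1, -1, 0), (0, 1, -1, -1, 0), (-1, 0, 0, -4, 0), (0, 0, -1, -2, 0), (0, 0, -1, -1, 0), (0, 1, -1, -1, 0), (1, 0, -6, 9, 0), (1, -2, -3, 3, 0), (1, 0, -2, -2, 0), (0, 0, -1, -2, 0), (0, 1, 0, -1, 0), (-2, 1, 0, -7, 0), (0, 0, -2, 1, 0), (0, 0, -2, 1, 0), (-1, 1, -1, 0, 0), (0, 0, -1, 0, 0), (0, 0, -1, 0, 0), (0, 1, -1, 0, 0)]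

/-- row 4 of sep4 -/
def sep4_4 : List (ℤ × ℤ × ℤ × ℤ × ℤ) := [(1, -4, 3, -3, 0), (0, 0, -1, 0, 0), (-1, 0, -1, -1, 0), (0, 0, 0, -1, 0), (0, 0, 0, -1, 0), (0, 0, 1, -1, 0), (1, 0, 3, -3, 0), (0, 1, 0, 0, 0), (0, 2, -1, 0, 0), (0, 0, 1, -1, 0), (-1, 0, 3, -2, 0), (-1, 0, 1, -1, 0), (-1, 1, 0, 0, 0), (0, 0, 1, -1, 0), (0, 0, 0, -1, 0), (0, 0, 0, -1, 0), (0, 0, 0, -1, 0), (-1, 0, 1, -2, 0), (0, 0, 0, -1, 0), (0, 0, 0, -1, 0), (0, 0, 0, -1, 0), (-1, 0, 9, -3, 0), (-1, 0, 3, -2, 0), (0, 0, 0, -1, 0), (0, 0, 0, -1, 0), (0, 0, 1, -1, 0), (-1, 0, 1, -2, 0), (0, 1, -1, 0, 0), (-1, 1, 0, -1, 6), (-1, 2, -2, 0, 0), (0, 1, -1, -1, 0), (0, 1, -1, -1, 0), (0, 2, -1, -1, 0)]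

/-- row 5 of sep4 -/
def sep4_5 : List (ℤ × ℤ × ℤ × ℤ × ℤ) := [(1, 0, -6, 1, 0), (0, 0, -1, 0, 0), (0, 0, 0, -1, 0), (0, 0, 0, -1, 0), (0, 0, 1, -1, 0), (1, 0, 3, -3, 0), (1, 4, -3, 0, 0), (-1, 4, -3, 2, 0), (0, 0, 1, -1, 0), (0, -1, 3, -3, 0), (-1, 1, 0, 0, 0), (-1, 2, -1, 1, 0), (0, 0, 1, -1, 0), (0, 0, 0, -1, 0), (0, 0, 0, -1, 0), (0, 0, 0, -1, 0), (0, 0, 1, -1, 0), (0, 0, 0, -1, 0), (0, 0, 0, -1, 0), (0, 0, 0, -1, 0), (1, -2, 3, -3, 0), (0, -1, 3, -3, 0), (0, 0, 0, -1, 0), (0, 0, 0, -1, 0), (0, 0, 1, -1, 0), (0, 0, 1, -1, 0), (1, 1, -5, 0, 0), (-1, 1, -1, 0, 0), (0, 1, -2, 0, 0), (0, 1, -1, -1, 0), (0, 1, -1, -1, 0), (0, 1, -1, 0, 0)]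

/-- row 6 of sep4 -/
def sep4_6 : List (ℤ × ℤ × ℤ × ℤ × ℤ) := [(-1, 0, 0, -1, 0), (-1, 0, 0, -2, -6), (0, 0, 1, -1, 0), (0, 0, 2, -1, 0), (0, 0, 3, -1, 0), (1, 0, 3, -1, 0), (0, 1, 1, 0, 0), (0, 0, 2, -1, 0), (0, 0, 3, -1, 0), (-1, 1, 1, 0, 0), (-1, 1, 0, 0, 0), (0, 0, 2, -1, 0), (1, 0, 4, -2, 0), (0, 0, 1, -1, 0), (-1, 1, 0, -1, 0), (-1, 1, 2, -1, 0), (-1, 0, 2, -2, 0), (-2, 2, 1, -2, 0), (-2, 2, 0, -1, 0), (0, 0, 3, -1, 0), (0, 0, 3, -1, 0), (1, -2, 4, -2, 0), (0, 0, 3, -2, 0), (0, 1, 2, -1, 0), (0, 1, 2, -1, 0), (0, 1, 0, 0, 0), (-3, 2, 0, -1, 0), (-2, 2, 0, -1, 0), (-2, 2, 0, -1, 0), (-1, 1, 0, -1, 0), (-1, 2, 0, -1, 0)]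

/-- row 7 of sep4 -/
def sep4_7 : List (ℤ × ℤ × ℤ × ℤ × ℤ) := [(0, 0, 1, -1, 0), (1, 0, 5, -2, 12), (0, 1, 1, 0, 0), (1, 1, 2, 0, 0), (1, 0, 2, 0, 0), (1, 1, 2, 0, 0), (0, 0, 2, -1, 0), (0, 0, 3, -1, 0), (0, 0, 1, 0, 0), (0, 1, 1, 1, 0), (0, 1, 1, 0, 0), (1, 1, 2, 0, 0), (1, 1, 1, 0, 0), (0, 1, 0, 0, 0), (0, 0, 2, -1, 0), (-1, 0, 4, -2, 0), (-1, 0, 3, -2, 0), (-1, 1, 0, -1, -6), (0, 0, 3, -1, 0), (0, 0, 3, -1, 0), (1, -2, 4, -2, 0), (0, -1, 4, -2, 0), (0, 1, 1, 0, 0), (0, 1, 2, -1, 0), (1, 1, 1, 0, 0), (-1, 1, 0, 0, 0), (-2, 3, 0, -1, 0), (-2, 2, 0, -1, -6), (0, 1, 0, 0, 0), (0, 1, 0, 0, 0)]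

/-- row 8 of sep4 -/
def sep4_8 : List (ℤ × ℤ × ℤ × ℤ × ℤ) := [(3, -4, 3, 0, 0), (0, 0, 1, 0, 0), (0, 0, 1, 0, 0), (1, 0, 1, 1, 0), (0, 0, 1, 1, 0), (0, 0, 1, 1, 0), (0, 0, 1, 1, 0), (0, 0, 1, 1, 0), (0, 0, 1, 1, 0), (0, 1, 1, 0, 0), (1, 1, 2, 0, 0), (1, 1, 1, 0, 0), (0, 1, 0, 0, 0), (0, 0, 3, -1, 0), (0, 0, 1, 0, 2), (-1, 1, 0, 0, 0), (-2, 2, -1, 0, -6), (0, 0, 1, 1, 0), (0, 0, 1, 1, 0), (1, 0, 6, 0, 18), (0, 0, 1, 0, 2), (0, 1, 1, 0, 0), (0, 1, 2, 0, 0), (1, 0, 0, 1, 0), (-1, 0, -2, 2, -6), (-2, 2, -1, 0, -6), (-1, 1, -1, 0, -6), (0, 1, 0, 0, 0), (0, 1, 0, 0, 0)]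

/-- row 9 of sep4 -/
def sep4_9 : List (ℤ × ℤ × ℤ × ℤ × ℤ) := [(0, 0, 1, 1, 0), (0, 0, 1, 1, 0), (0, 0, 1, 1, 0), (0, 0, 1, 1, 0), (0, 0, 1, 1, 0), (0, 0, 1, 1, 0), (0, 0, 1, 1, 0), (0, 0, 1, 1, 0), (0, 1, 2, 0, 0), (1, 1, 3, 0, 0), (0, 1, 0, 0, 0), (0, 2, -1, 0, -6), (0, 1, 3, -1, 0), (-2, 1, 3, 0, 0), (-1, 1, -1, 0, -2), (-2, 2, -3, 2, 0), (0, 0, 1, 1, 0), (0, 0, 1, 1, 0), (1, -2, 3, 0, 0), (-1, 0, 6, 0, 6), (0, 1, 1, 0, 0), (-1, 1, 2, 0, 0), (0, 0, -1, 1, 0), (-3, 4, -4, 2, 0), (-3, 4, -2, 0, 0), (-3, 4, -2, 0, 0), (0, 1, -1, 0, -6), (0, 2, -1, 0, -6)]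

/-- row 10 of sep4 -/
def sep4_10 : List (ℤ × ℤ × ℤ × ℤ × ℤ) := [(-1, 0, 0, 3, 0), (0, 1, -1, 1, 0), (0, 1, -1, 1, 0), (-1, 0, 0, 0, 0), (-1, 0, 0, 0, 0), (-1, 0, 0, 0, 0), (-1, 0, 0, 1, 0), (1, 0, -1, -2, 0), (1, 0, -2, -2, 0), (0, 1, -2, -1, 0), (0, 1, -2, 0, 0), (-2, 0, -1, -2, 0), (-1, 0, -1, -2, 0), (0, 0, -1, -1, 0), (0, 1, -2, 0, 0), (0, 0, -1, 2, 0), (-1, -1, 0, 3, 0), (1, 0, -2, -2, 0), (0, 0, -1, -2, 0), (0, 0, 0, -1, 0), (-1, 0, -1, -1, 6), (0, 0, -2, 1, 0), (-1, 0, -1, 1, 0), (0, 1, -2, 0, 0), (0, 0, -1, 0, 0), (0, 0, -1, 0, 0), (0, 1, -2, 0, 0)]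

/-- row 11 of sep4 -/
def sep4_11 : List (ℤ × ℤ × ℤ × ℤ × ℤ) := [(-2, 0, 0, 3, 0), (0, 3, -3, 1, 0), (-1, 0, 0, 0, 0), (-1, 0, 0, 0, 0), (-1, 0, 0, 0, 0), (-1, 1, -1, 1, 0), (0, -2, 1, -5, 0), (0, 0, -1, -2, 0), (0, 1, -2, -1, 0), (0, 1, -2, -1, 0), (-2, 0, -1, -2, 0), (-1, 0, -1, -2, 0), (0, 0, -1, -1, 0), (0, 1, -2, -1, 0), (0, -1, 0, 0, 0), (-1, -4, 3, -3, 0), (0, 0, -1, -2, 0), (0, -1, -1, -3, 0), (0, -1, 1, -3, 0), (-1, 0, 0, -1, 0), (0, 0, -3, 1, 0), (-1, 0, -1, 1, 0), (0, 1, -2, 0, 0), (0, 0, -1, 0, 0), (0, 0, -1, 0, 0), (0, 1, -2, 0, 0)]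

/-- row 12 of sep4 -/
def sep4_12 : List (ℤ × ℤ × ℤ × ℤ × ℤ) := [(-1, 0, 0, 1, 0), (-1, 0, 0, 0, 0), (-1, 0, 0, 0, 0), (-1, 0, 0, 0, 0), (-2, 1, -1, 0, 0), (1, -1, 0, -3, 0), (1, 0, -1, -2, 0), (0, 0, -1, -1, 0), (0, 0, -1, -1, 0), (-2, 0, -1, -2, 0), (-1, 0, -1, -2, 0), (0, 0, -1, -1, 0), (0, 0, -1, -1, 0), (1, -4, 3, -3, 0), (1, -3, 2, -3, 0), (0, -1, 0, -1, 0), (0, -1, 0, -1, 0), (1, 0, 0, -2, 0), (0, -1, 0, -2, 6), (0, 1, -2, 0, 0), (-2, 1, -2, 0, 0), (-1, 1, -2, 0, 0), (-1, 0, -1, 0, 0), (-1, 0, -2, 0, 0), (-1, 1, -2, 0, 0)]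

/-- row 13 of sep4 -/
def sep4_13 : List (ℤ × ℤ × ℤ × ℤ × ℤ) := [(-1, -1, 1, -1, 0), (-1, -1, 1, 0, 0), (-1, -1, 1, 0, 0), (-1, 0, 0, 0, 0), (2, 0, -1, -3, 0), (1, 0, -1, -2, 0), (0, 0, -1, -1, 0), (0, 0, -1, -1, 0), (-2, 0, -1, -2, 0), (-1, 0, -1, -2, 0), (0, 0, -1, -1, 0), (0, 0, -1, -1, 0), (1, -3, 2, -2, 0), (0, -2, 1, -1, 0), (0, -1, 0, -1, 0), (0, -1, 0, -1, 0), (1, 0, 0, -2, 0), (0, -1, 0, -2, 6), (0, 0, -1, 0, 0), (-1, 0, -1, 0, 0), (-1, 0, -1, 0, 0), (0, 0, -1, -1, 0), (0, 0, -1, -1, 0), (-1, 0, -2, 0, 0)]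

/-- row 14 of sep4 -/
def sep4_14 : List (ℤ × ℤ × ℤ × ℤ × ℤ) := [(1, 0, 0, 3, 0), (0, 1, -1, 3, 0), (0, 1, -1, 2, 0), (2, 0, -1, -2, 0), (1, 0, -1, -2, 0), (0, 1, -2, -1, 0), (0, 1, -2, 0, 0), (-1, 0, -1, -2, 0), (-1, 0, -2, -2, 0), (0, 0, -1, -1, 0), (0, 1, -2, 0, 0), (1, 0, -1, 3, 0), (3, -2, 0, 3, 0), (1, 0, -1, -2, 0), (0, 0, -1, -2, 0), (2, 1, -1, -1, 0), (0, 0, 0, -1, 0), (0, 0, -2, 1, 0), (0, 0, -2, 1, 0), (0, 1, -2, 0, 0), (0, 0, -1, 0, 0), (0, 0, -1, 0, 0), (0, 1, -2, 1, 0)]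

/-- row 15 of sep4 -/
def sep4_15 : List (ℤ × ℤ × ℤ × ℤ × ℤ) := [(-2, 3, -3, 3, 0), (0, 2, -2, 3, 0), (2, 0, -1, -2, 0), (1, 0, -1, -2, 0), (0, 1, -2, -1, 0), (0, 1, -2, 0, 0), (0, -1, 0, -4, 0), (0, 0, -1, -2, 0), (0, 0, -1, -1, 0), (0, 1, -2, 0, 0), (1, 0, -1, 2, 0), (1, -1, 0, 0, 0), (1, -1, -1, -2, 0), (0, -1, -1, -3, 0), (2, 1, -1, -1, 0), (0, -1, 1, -6, 0), (1, 1, -2, 1, 0), (0, 0, -3, 1, 0), (0, 1, -2, 0, 0), (0, 0, -1, 0, 0), (0, 0, -1, 0, 0), (0, 1, -2, 0, 0)]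

/-- row 16 of sep4 -/
def sep4_16 : List (ℤ × ℤ × ℤ × ℤ × ℤ) := [(1, 0, 0, 1, 0), (2, 0, -1, -2, 0), (1, 0, -1, -2, 0), (0, 1, -2, -1, 0), (0, 1, -2, 0, 0), (-1, -1, 0, -4, 0), (-1, 0, -1, -2, 0), (0, 0, -1, -1, 0), (0, 1, -2, 0, 0), (3, -4, 3, -3, 0), (3, -4, 3, -3, 0), (1, -1, 0, -1, 0), (0, -1, 0, -2, 0), (2, 1, -1, -1, 0), (0, -1, 1, -3, 0), (1, 1, -2, 0, 0), (-1, 1, -2, 0, 0), (0, 1, -2, 0, 0), (1, 1, -2, -1, 0), (1, 0, -1, 0, 0), (0, 1, -2, 0, 0)]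

/-- row 17 of sep4 -/
def sep4_17 : List (ℤ × ℤ × ℤ × ℤ × ℤ) := [(2, 0, -1, -2, 0), (1, 0, -1, -2, 0), (0, 0, -1, -1, 0), (0, 0, -1, -1, 0), (-2, 0, -1, -3, 0), (-1, 0, -1, -2, 0), (0, 0, -1, -1, 0), (0, 0, -1, -1, 0), (2, -3, 2, -2, 0), (1, -3, 2, -3, 0), (1, -1, 0, -1, 0), (1, -1, 0, -2, 0), (1, 0, 0, -1, 0), (0, -1, 1, -3, 0), (1, 0, -1, 0, 0), (0, 0, -1, 0, 0), (0, 1, -2, -1, 0), (0, 0, -1, -1, 0), (0, 0, -1, -1, 0), (0, 1, -2, -1, 0)]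

/-- row 18 of sep4 -/
def sep4_18 : List (ℤ × ℤ × ℤ × ℤ × ℤ) := [(1, 0, -3, 0, 0), (0, 0, -1, 0, 0), (0, 0, -1, 0, 0), (-1, 0, 0, 0, 0), (-1, 0, 0, 0, 0), (-1, 0, 0, 0, 0), (0, 0, -1, 0, 0), (0, 0, -1, 3, 0), (0, 0, -1, 3, 0), (1, -1, -3, 0, 0), (1, -3, -3, 0, 0), (-1, 0, 1, 0, 0), (-2, 0, 1, 0, 0), (0, 0, -2, 1, 0), (-2, 0, 0, 1, 0), (0, 0, -2, 1, 0), (0, 0, -2, 1, 0), (0, 0, -2, 1, 0), (0, 0, -2, 1, 0)]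

/-- row 19 of sep4 -/
def sep4_19 : List (ℤ × ℤ × ℤ × ℤ × ℤ) := [(-1, 0, -3, 0, 0), (-1, 0, -2, 0, 0), (-1, 0, 0, 0, 0), (-1, 0, 0, 0, 0), (-1, 0, 0, 0, 0), (-1, 0, -1, 0, 0), (0, 0, 0, 1, 0), (0, 0, 0, 1, 0), (0, -1, 0, 0, 0), (-1, -1, 3, 0, 0), (-1, 0, 2, 0, 0), (-1, 0, 1, 0, 0), (-1, 0, -4, 2, 0), (-2, 0, 0, 1, 0), (-1, 0, -2, 2, 0), (-1, 0, -2, 1, 0), (-1, -1, -3, 1, 0), (-1, 0, -3, 1, 0)]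

/-- row 20 of sep4 -/
def sep4_20 : List (ℤ × ℤ × ℤ × ℤ × ℤ) := [(-1, 0, -1, 0, 0), (-1, 0, 0, 0, 0), (-1, 0, 0, 0, 0), (-1, 0, 0, 0, 0), (-2, 0, -1, 0, 0), (0, 0, 0, 1, 0), (0, 0, 0, 1, 0), (0, -2, 3, 0, 6), (0, -1, 1, 0, 0), (0, 0, 1, 0, 0), (0, 0, 1, 0, 0), (0, 0, -1, 1, 0), (-2, 0, 0, 1, 0), (-1, 0, -1, 1, 0), (-2, 0, -2, 1, 0), (-1, 0, -2, 1, 0), (0, 0, -1, 1, 0)]

/-- row 21 of sep4 -/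
def sep4_21 : List (ℤ × ℤ × ℤ × ℤ × ℤ) := [(0, 0, 1, 0, 0), (-1, 0, 1, 0, 0), (-1, -1, 1, 0, 6), (-1, 0, 0, 0, 0), (0, -1, 1, 1, 0), (0, -1, 1, 1, 0), (1, -2, 4, -2, 0), (0, -1, 1, 0, 0), (0, 0, 1, 0, 0), (0, 0, 1, 0, 0), (1, 0, 0, 1, 0), (-2, 0, 0, 1, 0), (-2, 0, -1, 2, 0), (-1, 0, -1, 1, 0), (0, 0, -1, 1, 0), (1, 0, -1, 2, 0)]

/-- row 22 of sep4 -/
def sep4_22 : List (ℤ × ℤ × ℤ × ℤ × ℤ) := [(-1, 0, -3, 0, 0), (0, 0, -1, 0, 0), (0, 0, -1, 0, 0), (1, 0, -1, 3, 0), (0, 0, -1, 3, 0), (1, -1, -1, 0, 0), (2, -3, -3, 0, 0), (1, 1, 0, 2, 0), (1, 0, 1, 0, 0), (2, 0, 0, 1, 0), (0, 0, -2, 1, 0), (0, 0, -2, 1, 0), (0, 0, -2, 1, 0), (0, 0, -2, 1, 0), (0, 0, -2, 1, 0)]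

/-- row 23 of sep4 -/
def sep4_23 : List (ℤ × ℤ × ℤ × ℤ × ℤ) := [(1, 0, -3, 0, 0), (0, 1, -3, 0, -6), (0, 0, 0, 1, 0), (0, 0, 0, 1, 0), (2, -1, -3, 0, 0), (1, -1, 0, 0, 0), (1, 0, 1, 0, 0), (0, 1, 2, 2, 0), (1, 0, -1, 1, 0), (1, 0, -4, 2, 0), (1, 0, -3, 1, 0), (2, -1, -3, 1, 0), (1, 0, -3, 2, 0), (1, 0, -2, 2, 0)]

/-- row 24 of sep4 -/
def sep4_24 : List (ℤ × ℤ × ℤ × ℤ × ℤ) := [(1, 0, -1, 0, 0), (0, 0, 0, 1, 0), (0, 0, 0, 1, 0), (2, -2, 3, 0, 6), (0, -1, 3, 0, 0), (0, 0, 1, 0, 0), (0, 0, 1, 0, 0), (1, 0, -1, 1, 0), (0, 0, -1, 1, 0), (0, 0, -1, 1, 0), (1, 0, -2, 1, 0), (2, 0, -2, 1, 0), (1, 0, -1, 1, 0)]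

/-- row 25 of sep4 -/
def sep4_25 : List (ℤ × ℤ × ℤ × ℤ × ℤ) := [(0, -1, 1, 1, 0), (0, -1, 1, 1, 0), (1, -2, 4, -2, 0), (0, -1, 2, 0, 0), (0, 0, 1, 0, 0), (0, 0, 1, 0, 0), (2, 0, -1, 2, 0), (-1, 0, 0, 1, 0), (-1, 0, -1, 2, 0), (0, 0, -1, 1, 0), (1, 0, -1, 1, 0), (2, 0, -1, 2, 0)]

/-- row 26 of sep4 -/
def sep4_26 : List (ℤ × ℤ × ℤ × ℤ × ℤ) := [(-1, 0, 3, -3, 0), (0, 0, 0, -1, 0), (0, 0, 0, -1, 0), (0, 0, 1, -3, 0), (-1, 0, 1, -3, 0), (0, 0, -3, 1, 0), (0, 0, -3, 1, 0), (-1, 1, -2, 0, 0), (0, 1, -1, -1, 0), (0, 1, -1, -1, 0), (0, 1, -1, 0, 0)]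

/-- row 27 of sep4 -/
def sep4_27 : List (ℤ × ℤ × ℤ × ℤ × ℤ) := [(0, 0, 0, -1, 0), (0, 0, 0, -1, 0), (0, 0, 1, -3, 0), (0, 0, 1, -3, 0), (0, 0, -3, 1, 0), (0, 0, -3, 1, 0), (0, 1, -2, 0, 0), (0, 0, -1, 0, 0), (0, 0, -1, 0, 0), (0, 1, -1, 0, 0)]

/-- row 28 of sep4 -/
def sep4_28 : List (ℤ × ℤ × ℤ × ℤ × ℤ) := [(-1, 0, 3, 0, 0), (-1, 1, 2, 0, 0), (-1, 1, 1, 0, 0), (-1, 2, -4, 2, 0), (-1, 2, -4, 2, 0), (-1, 2, -2, 0, 0), (0, 0, -3, 2, 0), (-1, 2, -2, 0, 0), (-1, 2, -2, 0, 0)]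

/-- row 29 of sep4 -/
def sep4_29 : List (ℤ × ℤ × ℤ × ℤ × ℤ) := [(-1, 2, 2, 2, 0), (-1, 2, 2, 2, 0), (0, 1, -2, 1, 0), (1, 0, -4, 2, 0), (0, 1, -2, 0, 0), (0, 1, -2, 0, 0), (0, 1, -1, 0, 0), (0, 1, -1, 0, 0)]

/-- row 30 of sep4 -/
def sep4_30 : List (ℤ × ℤ × ℤ × ℤ × ℤ) := [(-1, 0, 0, 0, 0), (1, 0, -2, 1, 0), (-1, 0, -1, 1, 0), (0, 0, -2, 1, 0), (0, 0, -2, 1, 0), (0, 0, -2, 1, 0), (0, 0, -2, 1, 0)]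

/-- row 31 of sep4 -/
def sep4_31 : List (ℤ × ℤ × ℤ × ℤ × ℤ) := [(1, 0, -1, 1, 0), (0, 0, -2, 1, 0), (0, 0, -2, 1, 0), (0, 0, -2, 1, 0), (0, 0, -2, 1, 0), (0, 0, -2, 1, 0)]

/-- row 32 of sep4 -/
def sep4_32 : List (ℤ × ℤ × ℤ × ℤ × ℤ) := [(-1, 0, 0, 0, 0), (-2, 1, 0, -1, 0), (-3, 1, 0, -2, 0), (-2, 1, 0, -2, 0), (-1, 1, 0, -1, 0)]

/-- row 33 of sep4 -/
def sep4_33 : List (ℤ × ℤ × ℤ × ℤ × ℤ) := [(0, 1, 0, -1, 0), (1, 1, 0, -2, 0), (2, 1, 0, -2, 0), (1, 3, 0, -2, -6)]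

/-- row 34 of sep4 -/
def sep4_34 : List (ℤ × ℤ × ℤ × ℤ × ℤ) := [(1, 0, 0, -1, 0), (1, 1, 0, -1, -6), (1, 0, 0, 0, 0)]

/-- row 35 of sep4 -/
def sep4_35 : List (ℤ × ℤ × ℤ × ℤ × ℤ) := [(1, 0, 0, 0, 0), (2, 0, 0, 1, 0)]

/-- row 36 of sep4 -/
def sep4_36 : List (ℤ × ℤ × ℤ × ℤ × ℤ) := [(1, 0, 0, 1, 0)]

/-- row 37 of sep4 -/
def sep4_37 : List (ℤ × ℤ × ℤ × ℤ × ℤ) := []

/-- separating functionals of the triangles in the flat model -/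
def sep4 : List (List (ℤ × ℤ × ℤ × ℤ × ℤ)) := [
  sep4_0, sep4_1, sep4_2, sep4_3, sep4_4, sep4_5, sep4_6, sep4_7,
  sep4_8, sep4_9, sep4_10, sep4_11, sep4_12, sep4_13, sep4_14, sep4_15,
  sep4_16, sep4_17, sep4_18, sep4_19, sep4_20, sep4_21, sep4_22, sep4_23,
  sep4_24, sep4_25, sep4_26, sep4_27, sep4_28, sep4_29, sep4_30, sep4_31,
  sep4_32, sep4_33, sep4_34, sep4_35, sep4_36, sep4_37]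

/-- row 0 of sepF -/
def sepF_0 : List (ℤ × ℤ × ℤ × ℤ) := [(-1, 0, 0, 2), (-1, 0, 0, 1), (-3, -1, 5, 20), (-13, -26, -5, 0), (-1, 1, 4, 0), (-47, -29, -10, -10), (0, -1, 0, 2), (-10, 3, 0, -3), (-1, 1, 5, 0), (-19, -19, -5, -5), (-1, 0, 0, 1), (-1, 0, 0, 1), (-17, 0, -1, 0), (-5, -3, -1, 0), (-2, 1, 4, 0), (-4, 1, 0, 0)]

/-- row 1 of sepF -/
def sepF_1 : List (ℤ × ℤ × ℤ × ℤ) := [(-1, 1, 0, 0), (0, 1, 1, 0), (-2, 0, -1, -4), (0, 1, 2, -1), (0, -1, -1, -7), (1, 0, 0, -1), (0, 1, 0, -1), (0, 1, 2, -1), (-2, -2, -1, -7), (-1, 1, 1, 0), (-3, 0, -1, -4), (0, 1, 0, -1), (-2, -2, -1, -5), (0, 1, 2, -1), (0, 1, 0, -1)]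

/-- row 2 of sepF -/
def sepF_2 : List (ℤ × ℤ × ℤ × ℤ) := [(1, 4, 70, 0), (-5, -11, -3, -12), (4, 1, 1, -15), (7, -1, -1, -39), (2, 0, 0, -1), (3, 1, 0, -17), (0, 1, 15, -2), (-2, -4, -1, -5), (-1, 1, 16, 0), (-5, -10, -3, -12), (-19, -16, -5, -30), (-19, -16, -5, -30), (0, 1, 8, -8), (-1, 1, 8, -8)]

/-- row 3 of sepF -/
def sepF_3 : List (ℤ × ℤ × ℤ × ℤ) := [(-2, -5, -2, -4), (0, 2, 5, -10), (0, -1, -1, -1), (2, -5, -1, -2), (0, 0, -1, -1), (-1, 17, 39, -80), (-2, -3, -1, -12), (-2, -7, -113, 0), (-5, -14, -5, -7), (-5, -14, -113, -7), (-7, -6, -3, -63), (0, 1, 3, -7), (-5, -14, -257, -7)]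

/-- row 4 of sepF -/
def sepF_4 : List (ℤ × ℤ × ℤ × ℤ) := [(1, 1, 2, 0), (-10, -9, -5, -100), (4, 0, 1, 2), (2, 4, 1, 0), (1, 3, 5, 0), (-41, -83, -20, -160), (1, 0, 2, 7), (12, 28, 7, 28), (3, 7, 2, 7), (-7, -6, -3, -63), (1, 2, 3, 0), (3, 7, 2, 7)]

/-- row 5 of sepF -/
def sepF_5 : List (ℤ × ℤ × ℤ × ℤ) := [(-7, -6, -6, 0), (1, -2, -5, 3), (-4, -2, -17, 0), (-13, -18, -31, 155), (-1, -9, -18, 36), (-3, 0, 2, 2), (-1, -1, -2, 0), (-2, -1, -1, 0), (-67, -36, -18, 0), (-59, 3, 48, 0), (-8, 5, 16, -64)]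

/-- row 6 of sepF -/
def sepF_6 : List (ℤ × ℤ × ℤ × ℤ) := [(3, 2, 1, 7), (59, 55, 17, 17), (29, 27, 18, 252), (621, 557, 310, 6200), (0, 1, 1, 1), (-4, -1, 0, 15), (-4, -1, 0, 15), (-107, -51, -15, -45), (-1, 3, 6, 6), (0, 1, 1, 0)]

/-- row 7 of sepF -/
def sepF_7 : List (ℤ × ℤ × ℤ × ℤ) := [(-1, 1, 0, 0), (-1, 2, 5, -3), (-3, -2, -1, -7), (-2, 0, 0, 1), (-7, 0, -1, 0), (-1, 1, 0, 0), (-4, -3, -1, -4), (-1, 1, 3, 0), (-1, 1, 0, 0)]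

/-- row 8 of sepF -/
def sepF_8 : List (ℤ × ℤ × ℤ × ℤ) := [(0, 0, 1, 1), (-2, -4, -1, 0), (0, 1, 10, 1), (-8, -7, -2, 0), (-8, -7, -2, 0), (-8, -7, -2, 0), (0, 1, 10, 0), (0, 1, 10, 0)]

/-- row 9 of sepF -/
def sepF_9 : List (ℤ × ℤ × ℤ × ℤ) := [(-23, -69, -114, 0), (0, -2, -27, 7), (0, -3, -7, 11), (0, -1, -11, 3), (-12, -10, -5, -113), (-1, 9, 20, -56), (0, -2, -27, 7)]

/-- row 10 of sepF -/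
def sepF_10 : List (ℤ × ℤ × ℤ × ℤ) := [(2, 2, 1, 11), (2, 3, 1, 10), (2, 3, 1, 10), (-12, -10, -5, -113), (1, 2, 3, 0), (2, 2, 1, 11)]

/-- row 11 of sepF -/
def sepF_11 : List (ℤ × ℤ × ℤ × ℤ) := [(-1, 0, -2, -7), (-1, 0, -1, -7), (-5, -4, -2, -31), (0, 1, 8, -8), (-2, 1, 0, -16)]

/-- row 12 of sepF -/
def sepF_12 : List (ℤ × ℤ × ℤ × ℤ) := [(-13, 7, 0, -105), (-14, -13, -5, -75), (1, 2, 3, 0), (2, 7, 2, 0)]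

/-- row 13 of sepF -/
def sepF_13 : List (ℤ × ℤ × ℤ × ℤ) := [(-653, -611, -235, -3525), (38, 47, 94, 0), (2, 7, 57, 0)]

/-- row 14 of sepF -/
def sepF_14 : List (ℤ × ℤ × ℤ × ℤ) := [(966, 1103, 1334, 0), (99, 94, 47, 517)]

/-- row 15 of sepF -/
def sepF_15 : List (ℤ × ℤ × ℤ × ℤ) := [(-6, -47, -376, 376)]

/-- row 16 of sepF -/
def sepF_16 : List (ℤ × ℤ × ℤ × ℤ) := []

/-- separating functionals of the faces in space -/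
def sepF : List (List (ℤ × ℤ × ℤ × ℤ)) := [
  sepF_0, sepF_1, sepF_2, sepF_3, sepF_4, sepF_5, sepF_6, sepF_7,
  sepF_8, sepF_9, sepF_10, sepF_11, sepF_12, sepF_13, sepF_14, sepF_15,
  sepF_16]

/-- row 0 of ind3 -/
def ind3_0 : List (ℤ × ℤ × ℤ × ℤ) := [(10, -3, 0, 3), (-47, 47, 8, 0), (1, -1, -4, 0)]

/-- row 1 of ind3 -/
def ind3_1 : List (ℤ × ℤ × ℤ × ℤ) := [(47, 29, 10, 10), (-1, 1, 0, 0), (47, -47, -8, 0)]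

/-- row 2 of ind3 -/
def ind3_2 : List (ℤ × ℤ × ℤ × ℤ) := [(13, 26, 5, 0), (-13, 13, -2, 0), (1, -1, 0, 0)]

/-- row 3 of ind3 -/
def ind3_3 : List (ℤ × ℤ × ℤ × ℤ) := [(-1, 3, 0, 0), (0, 0, -1, 0), (13, -13, 2, 0)]

/-- row 4 of ind3 -/
def ind3_4 : List (ℤ × ℤ × ℤ × ℤ) := [(1, 0, 0, 0), (-4, 0, 1, 4), (0, 0, -1, 0)]

/-- row 5 of ind3 -/
def ind3_5 : List (ℤ × ℤ × ℤ × ℤ) := [(2, 0, 1, 4), (-1, 0, 0, 1), (4, 0, -1, -4)]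

/-- row 6 of ind3 -/
def ind3_6 : List (ℤ × ℤ × ℤ × ℤ) := [(0, 1, 0, 0), (0, -3, 16, 64), (0, -1, -16, 0)]

/-- row 7 of ind3 -/
def ind3_7 : List (ℤ × ℤ × ℤ × ℤ) := [(0, 10, 3, 12), (0, -53, 1, 849), (0, 3, -16, -64)]

/-- row 8 of ind3 -/
def ind3_8 : List (ℤ × ℤ × ℤ × ℤ) := [(0, 1, 1, 39), (0, -55, -1, 879), (0, 53, -1, -849)]

/-- row 9 of ind3 -/
def ind3_9 : List (ℤ × ℤ × ℤ × ℤ) := [(0, -1, 0, 17), (0, -1, -1, 15), (0, 55, 1, -879)]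

/-- row 10 of ind3 -/
def ind3_10 : List (ℤ × ℤ × ℤ × ℤ) := [(-3, -1, 0, 20), (1, 9, 0, -24), (1, -17, 0, 80)]

/-- row 11 of ind3 -/
def ind3_11 : List (ℤ × ℤ × ℤ × ℤ) := [(-2, 5, 0, 2), (4, 13, 0, -4), (-1, -9, 0, 24)]

/-- row 12 of ind3 -/
def ind3_12 : List (ℤ × ℤ × ℤ × ℤ) := [(0, 1, 0, 0), (1, 3, 0, 0), (-4, -13, 0, 4)]

/-- row 13 of ind3 -/
def ind3_13 : List (ℤ × ℤ × ℤ × ℤ) := [(2, 7, 0, 0), (2, 5, 0, 4), (-1, -3, 0, 0)]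

/-- row 14 of ind3 -/
def ind3_14 : List (ℤ × ℤ × ℤ × ℤ) := [(-3, -1, 0, 20), (1, 9, 0, -24), (1, -17, 0, 80)]

/-- row 15 of ind3 -/
def ind3_15 : List (ℤ × ℤ × ℤ × ℤ) := [(-4, 0, -1, -2), (2, 8, -1, -8), (-1, -9, 0, 24)]

/-- row 16 of ind3 -/
def ind3_16 : List (ℤ × ℤ × ℤ × ℤ) := [(-2, 0, -1, -4), (-1, 0, -3, -12), (-2, -8, 1, 8)]

/-- row 17 of ind3 -/
def ind3_17 : List (ℤ × ℤ × ℤ × ℤ) := [(-4, 0, -7, -28), (0, 0, -1, 0), (1, 0, 3, 12)]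

/-- row 18 of ind3 -/
def ind3_18 : List (ℤ × ℤ × ℤ × ℤ) := [(-1, 1, 4, 0), (11, -7, -22, 0), (-23, 23, 62, 0)]

/-- row 19 of ind3 -/
def ind3_19 : List (ℤ × ℤ × ℤ × ℤ) := [(4, 2, 17, 0), (101, -12, -102, 0), (-11, 7, 22, 0)]

/-- row 20 of ind3 -/
def ind3_20 : List (ℤ × ℤ × ℤ × ℤ) := [(0, -1, -1, 15), (18, -1, -16, 0), (-101, 12, 102, 0)]

/-- row 21 of ind3 -/
def ind3_21 : List (ℤ × ℤ × ℤ × ℤ) := [(59, -3, -48, 0), (7, 6, 6, 0), (-18, 1, 16, 0)]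

/-- row 22 of ind3 -/
def ind3_22 : List (ℤ × ℤ × ℤ × ℤ) := [(-47, -29, -10, -10), (121, 61, 22, 0), (-776, -402, -155, -155)]

/-- row 23 of ind3 -/
def ind3_23 : List (ℤ × ℤ × ℤ × ℤ) := [(-59, -55, -17, -17), (691, 336, 102, 0), (-121, -61, -22, 0)]

/-- row 24 of ind3 -/
def ind3_24 : List (ℤ × ℤ × ℤ × ℤ) := [(1, 0, 0, 0), (103, 51, 15, 45), (-691, -336, -102, 0)]

/-- row 25 of ind3 -/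
def ind3_25 : List (ℤ × ℤ × ℤ × ℤ) := [(107, 51, 15, 45), (-7, -6, -6, 0), (-103, -51, -15, -45)]

/-- row 26 of ind3 -/
def ind3_26 : List (ℤ × ℤ × ℤ × ℤ) := [(1, 0, 0, -1), (0, -3, 1, 6), (0, 0, -1, 0)]

/-- row 27 of ind3 -/
def ind3_27 : List (ℤ × ℤ × ℤ × ℤ) := [(4, 0, 1, 2), (-1, 0, 0, 6), (0, 3, -1, -6)]

/-- row 28 of ind3 -/
def ind3_28 : List (ℤ × ℤ × ℤ × ℤ) := [(0, -1, 0, 17), (-192, 57, 17, -17), (-4, -2, -17, 0)]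

/-- row 29 of ind3 -/
def ind3_29 : List (ℤ × ℤ × ℤ × ℤ) := [(59, 55, 17, 17), (-10, 3, 0, -3), (192, -57, -17, 17)]

/-- row 30 of ind3 -/
def ind3_30 : List (ℤ × ℤ × ℤ × ℤ) := [(8, 5, 0, 76), (-49, -13, 0, 310), (1, -17, 0, 80)]

/-- row 31 of ind3 -/
def ind3_31 : List (ℤ × ℤ × ℤ × ℤ) := [(-23, -69, -114, 0), (-49, -13, 0, 310), (1, -17, 0, 80)]

/-- row 32 of ind3 -/
def ind3_32 : List (ℤ × ℤ × ℤ × ℤ) := [(2, 7, 0, 0), (2, -1, 0, 16), (-1, 0, 0, 0)]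

/-- row 33 of ind3 -/
def ind3_33 : List (ℤ × ℤ × ℤ × ℤ) := [(-1, 0, 0, 0), (13, -7, 0, 105), (-4, 0, -7, -28)]

/-- row 34 of ind3 -/
def ind3_34 : List (ℤ × ℤ × ℤ × ℤ) := [(-31, -47, 0, 705), (-2, -7, -57, 0), (-13, 7, 0, -105)]

/-- row 35 of ind3 -/
def ind3_35 : List (ℤ × ℤ × ℤ × ℤ) := [(-966, -1103, -1334, 0), (-31, -47, 0, 705), (-107, -51, -15, -45)]

/-- row 36 of ind3 -/
def ind3_36 : List (ℤ × ℤ × ℤ × ℤ) := [(-30, -47, 0, 752), (92, 65, 0, 1334), (-59, 3, 48, 0)]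

/-- row 37 of ind3 -/
def ind3_37 : List (ℤ × ℤ × ℤ × ℤ) := [(11, 10, 0, 57), (-30, -47, 0, 752), (-2, 1, 0, -16)]

/-- functionals isolating the vertices of each triangle in space -/
def ind3 : List (List (ℤ × ℤ × ℤ × ℤ)) := [
  ind3_0, ind3_1, ind3_2, ind3_3, ind3_4, ind3_5, ind3_6, ind3_7,
  ind3_8, ind3_9, ind3_10, ind3_11, ind3_12, ind3_13, ind3_14, ind3_15,
  ind3_16, ind3_17, ind3_18, ind3_19, ind3_20, ind3_21, ind3_22, ind3_23,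
  ind3_24, ind3_25, ind3_26, ind3_27, ind3_28, ind3_29, ind3_30, ind3_31,
  ind3_32, ind3_33, ind3_34, ind3_35, ind3_36, ind3_37]

/-- row 0 of ind4 -/
def ind4_0 : List (ℤ × ℤ × ℤ × ℤ × ℤ) := [(-1, 2, 3, 0, 0), (3, -4, -3, 0, 0), (-1, 0, 0, 0, 6)]

/-- row 1 of ind4 -/
def ind4_1 : List (ℤ × ℤ × ℤ × ℤ × ℤ) := [(1, 0, 0, 0, 6), (0, 0, -1, 0, 6), (-3, 4, 3, 0, 0)]

/-- row 2 of ind4 -/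
def ind4_2 : List (ℤ × ℤ × ℤ × ℤ × ℤ) := [(1, 0, 1, 1, 0), (0, -1, 0, -3, 0), (0, 0, 0, 1, 0)]

/-- row 3 of ind4 -/
def ind4_3 : List (ℤ × ℤ × ℤ × ℤ × ℤ) := [(-1, 2, 3, -3, 0), (-1, 0, 1, 1, 0), (0, 1, 0, 3, 0)]

/-- row 4 of ind4 -/
def ind4_4 : List (ℤ × ℤ × ℤ × ℤ × ℤ) := [(0, 0, 1, 0, 0), (-1, 4, -3, 3, 0), (-1, 0, 1, 1, 0)]

/-- row 5 of ind4 -/
def ind4_5 : List (ℤ × ℤ × ℤ × ℤ × ℤ) := [(1, 0, 1, 1, 0), (-1, 2, -3, 3, 0), (1, -4, 3, -3, 0)]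

/-- row 6 of ind4 -/
def ind4_6 : List (ℤ × ℤ × ℤ × ℤ × ℤ) := [(0, 0, 0, -1, 6), (1, 0, 0, 1, 0), (-1, 0, -2, 1, 0)]

/-- row 7 of ind4 -/
def ind4_7 : List (ℤ × ℤ × ℤ × ℤ × ℤ) := [(1, 0, -2, 1, 0), (1, -2, 0, 1, 0), (-1, 0, 0, -1, 0)]

/-- row 8 of ind4 -/
def ind4_8 : List (ℤ × ℤ × ℤ × ℤ × ℤ) := [(1, 0, 0, 0, 6), (-3, 4, -3, 0, 0), (0, 0, 1, -1, 0)]

/-- row 9 of ind4 -/
def ind4_9 : List (ℤ × ℤ × ℤ × ℤ × ℤ) := [(-1, 2, -3, 0, 0), (-1, 0, 0, 0, 6), (3, -4, 3, 0, 0)]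

/-- row 10 of ind4 -/
def ind4_10 : List (ℤ × ℤ × ℤ × ℤ × ℤ) := [(0, 1, 0, 0, 0), (-2, -3, 3, 0, 0), (0, 0, 0, 1, 0)]

/-- row 11 of ind4 -/
def ind4_11 : List (ℤ × ℤ × ℤ × ℤ × ℤ) := [(0, 1, 0, 0, 0), (-1, -3, 3, 0, 0), (-1, 0, 0, 3, 0)]

/-- row 12 of ind4 -/
def ind4_12 : List (ℤ × ℤ × ℤ × ℤ × ℤ) := [(0, 1, 0, 0, 0), (0, -1, 1, 0, 0), (-2, 0, 0, 3, 0)]

/-- row 13 of ind4 -/
def ind4_13 : List (ℤ × ℤ × ℤ × ℤ × ℤ) := [(0, 0, 1, 0, 0), (1, 0, 0, 0, 0), (-1, 0, 0, 1, 0)]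

/-- row 14 of ind4 -/
def ind4_14 : List (ℤ × ℤ × ℤ × ℤ × ℤ) := [(-1, 1, 0, 0, 0), (-1, 0, 0, -3, 0), (0, 0, 0, 1, 0)]

/-- row 15 of ind4 -/
def ind4_15 : List (ℤ × ℤ × ℤ × ℤ × ℤ) := [(-1, 1, 0, 0, 0), (2, -3, 3, -3, 0), (1, 0, 0, 3, 0)]

/-- row 16 of ind4 -/
def ind4_16 : List (ℤ × ℤ × ℤ × ℤ × ℤ) := [(-1, 1, 0, 0, 0), (1, -1, 1, 0, 0), (-2, 3, -3, 3, 0)]

/-- row 17 of ind4 -/
def ind4_17 : List (ℤ × ℤ × ℤ × ℤ × ℤ) := [(0, 0, 1, 0, 0), (0, -1, 1, 1, 0), (1, 0, 0, 1, 0)]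

/-- row 18 of ind4 -/
def ind4_18 : List (ℤ × ℤ × ℤ × ℤ × ℤ) := [(0, 1, 0, 0, 0), (-1, 0, 3, 0, 0), (1, 0, -1, 0, 0)]

/-- row 19 of ind4 -/
def ind4_19 : List (ℤ × ℤ × ℤ × ℤ × ℤ) := [(0, 1, 0, 0, 0), (1, 0, 3, 0, 0), (1, 0, -3, 0, 0)]

/-- row 20 of ind4 -/
def ind4_20 : List (ℤ × ℤ × ℤ × ℤ × ℤ) := [(0, 1, 0, 0, 0), (1, 0, 1, 0, 0), (-1, 0, -3, 0, 0)]

/-- row 21 of ind4 -/
def ind4_21 : List (ℤ × ℤ × ℤ × ℤ × ℤ) := [(0, 0, 1, -1, 0), (1, 0, 0, 0, 0), (-1, 0, -1, 0, 0)]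

/-- row 22 of ind4 -/
def ind4_22 : List (ℤ × ℤ × ℤ × ℤ × ℤ) := [(-1, 1, 0, 0, 0), (1, 0, 3, 0, 0), (1, -1, -1, 0, 6)]

/-- row 23 of ind4 -/
def ind4_23 : List (ℤ × ℤ × ℤ × ℤ × ℤ) := [(-1, 1, 0, 0, 0), (-1, 0, 3, 0, 0), (-1, 0, -3, 0, 0)]

/-- row 24 of ind4 -/
def ind4_24 : List (ℤ × ℤ × ℤ × ℤ × ℤ) := [(-1, 1, 0, 0, 0), (-1, 0, 1, 0, 0), (1, 0, -3, 0, 0)]

/-- row 25 of ind4 -/
def ind4_25 : List (ℤ × ℤ × ℤ × ℤ × ℤ) := [(0, 0, 1, -1, 0), (0, -1, 0, 0, 6), (1, 0, -1, 0, 0)]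

/-- row 26 of ind4 -/
def ind4_26 : List (ℤ × ℤ × ℤ × ℤ × ℤ) := [(1, -2, 3, -3, 0), (1, 0, -3, 3, 0), (-1, 0, 1, 1, 0)]

/-- row 27 of ind4 -/
def ind4_27 : List (ℤ × ℤ × ℤ × ℤ × ℤ) := [(1, 0, 1, 1, 0), (1, -2, -3, 3, 0), (-1, 0, 3, -3, 0)]

/-- row 28 of ind4 -/
def ind4_28 : List (ℤ × ℤ × ℤ × ℤ × ℤ) := [(1, -2, 3, 0, 0), (1, 0, -3, 0, 0), (-1, 0, 0, 0, 6)]

/-- row 29 of ind4 -/
def ind4_29 : List (ℤ × ℤ × ℤ × ℤ × ℤ) := [(1, 0, 0, 0, 6), (1, -2, -3, 0, 0), (-1, 0, 3, 0, 0)]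

/-- row 30 of ind4 -/
def ind4_30 : List (ℤ × ℤ × ℤ × ℤ × ℤ) := [(1, 0, 0, 0, 0), (-1, 0, 1, 0, 0), (0, 0, -1, 0, 6)]

/-- row 31 of ind4 -/
def ind4_31 : List (ℤ × ℤ × ℤ × ℤ × ℤ) := [(0, -1, 0, 0, 6), (1, 0, 1, 0, 0), (0, 0, -1, 0, 6)]

/-- row 32 of ind4 -/
def ind4_32 : List (ℤ × ℤ × ℤ × ℤ × ℤ) := [(0, 0, 0, -1, 6), (1, -1, 0, 1, 0), (0, 1, 0, 0, 0)]

/-- row 33 of ind4 -/
def ind4_33 : List (ℤ × ℤ × ℤ × ℤ × ℤ) := [(-1, 1, 0, 0, 0), (0, -1, 0, 1, 0), (0, 0, 0, -1, 6)]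

/-- row 34 of ind4 -/
def ind4_34 : List (ℤ × ℤ × ℤ × ℤ × ℤ) := [(-1, 0, 0, 1, 0), (0, -1, -2, 1, 0), (0, 1, 0, -1, 0)]

/-- row 35 of ind4 -/
def ind4_35 : List (ℤ × ℤ × ℤ × ℤ × ℤ) := [(0, -1, -2, 1, 0), (1, 0, 0, -1, 0), (-2, 1, 0, 1, 0)]

/-- row 36 of ind4 -/
def ind4_36 : List (ℤ × ℤ × ℤ × ℤ × ℤ) := [(-1, 0, 0, -1, 0), (1, 0, 0, 0, 0), (1, 1, 0, 1, 0)]

/-- row 37 of ind4 -/
def ind4_37 : List (ℤ × ℤ × ℤ × ℤ × ℤ) := [(1, 0, 0, 0, 0), (1, 0, 0, 1, 0), (-1, 1, 0, -1, 0)]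

/-- functionals isolating the vertices of each triangle in the flat model -/
def ind4 : List (List (ℤ × ℤ × ℤ × ℤ × ℤ)) := [
  ind4_0, ind4_1, ind4_2, ind4_3, ind4_4, ind4_5, ind4_6, ind4_7,
  ind4_8, ind4_9, ind4_10, ind4_11, ind4_12, ind4_13, ind4_14, ind4_15,
  ind4_16, ind4_17, ind4_18, ind4_19, ind4_20, ind4_21, ind4_22, ind4_23,
  ind4_24, ind4_25, ind4_26, ind4_27, ind4_28, ind4_29, ind4_30, ind4_31,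
  ind4_32, ind4_33, ind4_34, ind4_35, ind4_36, ind4_37]

/-- covering certificates of the faces by triangles -/
def cov3 : List (List Vx × (ℤ × ℤ × ℤ × ℤ) × List ((Vx × Vx × Vx) × (ℤ × ℤ × ℤ × ℤ))) := [
  ([10, 4, 6, 11, 2, 0], (1, -3, -10, 10), [((10, 4, 6), (47, -141, -20, 470)), ((10, 6, 11), (1, -3, 0, 10)), ((10, 11, 2), (13, -39, 5, 130)), ((10, 2, 0), (0, 0, 1, 0))]),
  ([1, 8, 9, 3], (0, 0, -1, 0), [((1, 8, 9), (4, 0, -1, -4)), ((1, 9, 3), (1, 0, 0, -1))]),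
  ([16, 8, 9, 17, 7, 5], (0, -1, -16, 0), [((16, 8, 9), (0, 3, -16, -64)), ((16, 9, 17), (0, 53, -1, -849)), ((16, 17, 7), (0, 55, 1, -879)), ((16, 7, 5), (0, 1, 1, -15))]),
  ([12, 10, 0, 1, 8, 13], (1, -17, 0, 80), [((12, 10, 0), (-1, -9, 0, 24)), ((12, 0, 1), (-4, -13, 0, 4)), ((12, 1, 8), (-1, -3, 0, 0)), ((12, 8, 13), (-2, -5, 0, -4))]),
  ([12, 11, 2, 3, 9, 13], (196, -95, 83, 2732), [((12, 11, 2), (64, -35, 47, 908)), ((12, 2, 3), (26, -25, 73, 412)), ((12, 3, 9), (4, -5, 17, 68)), ((12, 9, 13), (-2, -5, 29, -4))]),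
  ([14, 10, 4, 5, 16, 15], (-24, 11, 37, 65), [((14, 10, 4), (-16, 7, 25, 21)), ((14, 4, 5), (-43, 16, 70, -132)), ((14, 5, 16), (-14, 5, 23, -57)), ((14, 16, 15), (1, -1, -1, -39))]),
  ([14, 11, 6, 7, 17, 15], (-37, -25, -12, -158), [((14, 11, 6), (-25, -17, -8, -114)), ((14, 6, 7), (-140, -97, -43, -759)), ((14, 7, 17), (-136, -95, -41, -789)), ((14, 17, 15), (2, 1, 1, -15))]),
  ([0, 1, 3, 2], (0, 0, -1, 0), [((0, 1, 3), (30, 12, -29, -204)), ((0, 3, 2), (5, 2, 0, -34))]),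
  ([4, 5, 7, 6], (0, 0, -1, -2), [((4, 5, 7), (18, -36, -5, 332)), ((4, 7, 6), (1, -2, 0, 19))]),
  ([10, 12, 14], (423, -7191, 3335, 33840), [((10, 12, 14), (50447, 11527, -3956, -309870))]),
  ([11, 12, 14], (61725, -86493, 24688, 1086672), [((11, 12, 14), (69118, -51820, -55447, -2248923))]),
  ([16, 8, 13], (-1799, 2, 32, 0), [((16, 8, 13), (-525, 262, -7, -4199))]),
  ([13, 9, 17], (-238, 275, -554, -2216), [((13, 9, 17), (-4053, 1875, -74, -32121))]),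
  ([13, 17, 18], (-32229, 32823, 3724, -291249), [((13, 17, 18), (-2824, -1489, 11861, -16790))]),
  ([17, 15, 18], (-505276, 392859, 418473, 16704657), [((17, 15, 18), (-159071, 383473, -387280, -26665215))]),
  ([15, 16, 18], (-44389, -6822, 14463, 123615), [((15, 16, 18), (-63070, -34271, 32642, -1257256))]),
  ([16, 13, 18], (-3055, 1516, -161, -24417), [((16, 13, 18), (6561, 10208, -709, -164037))])]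

/-- covering certificates of the nine cells of the flat torus -/
def cov4 : List (List Vx × (ℤ × ℤ × ℤ × ℤ × ℤ) × List ((Vx × Vx × Vx) × (ℤ × ℤ × ℤ × ℤ × ℤ))) := [
  ([10, 12, 8, 13], (0, 0, 0, 1, 0), [((12, 10, 0), (0, 1, 0, 3, -6)), ((12, 0, 1), (0, 2, 0, 3, -12)), ((12, 1, 8), (0, 1, 0, 1, -6)), ((8, 12, 13), (0, 0, 0, 1, -6))]),
  ([8, 13, 16, 15], (0, 0, -1, 0, 0), [((13, 8, 16), (0, 1, -1, 0, -6)), ((16, 13, 18), (0, 1, -2, 0, -12)), ((16, 18, 15), (0, 0, -1, 0, -6))]),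
  ([16, 15, 10, 12], (0, 0, 1, -1, 0), [((16, 15, 14), (0, -1, 2, -2, 0)), ((14, 16, 5), (0, -1, 6, -6, -12)), ((14, 5, 4), (0, 1, 6, -6, -24)), ((14, 4, 10), (0, 1, 2, -2, -12)), ((10, 14, 12), (0, 0, 1, -1, -6))]),
  ([12, 11, 13, 9], (0, 0, 0, 1, 0), [((12, 11, 2), (1, 0, 0, 3, 0)), ((12, 2, 3), (2, 0, 0, 3, 0)), ((12, 3, 9), (1, 0, 0, 1, 0)), ((9, 12, 13), (0, 0, 0, 1, -6))]),
  ([13, 9, 15, 17], (0, 0, -1, 0, 0), [((13, 9, 17), (1, 0, -1, 0, 0)), ((17, 13, 18), (1, 0, -2, 0, -6)), ((17, 18, 15), (0, 0, -1, 0, -6))]),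
  ([15, 17, 12, 11], (0, 0, 1, -1, 0), [((17, 15, 14), (-1, 0, 2, -2, -6)), ((14, 17, 7), (-1, 0, 6, -6, -18)), ((14, 7, 6), (1, 0, 6, -6, -18)), ((14, 6, 11), (1, 0, 2, -2, -6)), ((11, 14, 12), (0, 0, 1, -1, -6))]),
  ([11, 10, 9, 8], (0, 0, 0, 1, 0), [((10, 11, 2), (1, -1, 0, 3, -6)), ((2, 10, 0), (0, 0, 0, 1, -2)), ((0, 2, 3), (1, -1, 0, 3, -12)), ((3, 0, 1), (0, 0, 0, 1, -4)), ((1, 3, 9), (1, -1, 0, 3, -18)), ((9, 1, 8), (0, 0, 0, 1, -6))]),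
  ([9, 8, 17, 16], (0, 0, -1, 0, 0), [((9, 8, 16), (-1, 1, -1, 0, 0)), ((16, 9, 17), (0, 0, -1, 0, -6))]),
  ([17, 16, 11, 10], (0, 0, 1, -1, 0), [((16, 17, 7), (1, -1, 3, -3, -6)), ((7, 16, 5), (0, 0, 1, -1, -2)), ((7, 5, 4), (-1, 1, 3, -3, -6)), ((4, 7, 6), (0, 0, 1, -1, -4)), ((6, 4, 10), (-1, 1, 3, -3, -12)), ((10, 6, 11), (0, 0, 1, -1, -6))])]

end Pool.Agent.Lib.MP_cf103f_co
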