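import Pool.Agent.Lib.MP_cf103f_co.Checks

set_option autoImplicit false
set_option linter.style.haveILetI false
set_option linter.unnecessarySeqFocus false

namespace Pool.Agent.Lib.MP_cf103f_co

open Set

/-- the gauge of the triangle with vertices `1`, `I`, `-1-I` -/
noncomputable def rho (z : ℂ) : ℝ := max (max (z.re + z.im) (z.im - 2 * z.re)) (z.re - 2 * z.im)

theorem continuous_rho : Continuous rho := by
  unfold rho
  have h1 := Complex.continuous_re
  have h2 := Complex.continuous_im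
  fun_prop

theorem rho_pos {z : ℂ} (hz : z ≠ 0) : 0 < rho z := by
  by_contra h
  have h' : rho z ≤ 0 := not_lt.1 h
  unfold rho at h'
  have h1 : z.re + z.im ≤ 0 := le_trans (le_trans (le_max_left _ _) (le_max_left _ _)) h'
  have h2 : z.im - 2 * z.re ≤ 0 := le_trans (le_trans (le_max_right _ _) (le_max_left _ _)) h'
  have h3 : z.re - 2 * z.im ≤ 0 := le_trans (le_max_right _ _) h'
  apply hz
  apply Complex.ext
  · show z.re = 0; linarith
  · show z.im = 0; linarith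

theorem rho_smul {t : ℝ} (ht : 0 ≤ t) (z : ℂ) : rho ((t : ℂ) * z) = t * rho z := by
  unfold rho
  simp only [Complex.mul_re, Complex.mul_im, Complex.ofReal_re, Complex.ofReal_im, zero_mul,
    sub_zero, add_zero]
  rw [mul_max_of_nonneg _ _ ht, mul_max_of_nonneg _ _ ht]
  congr 1
  · congr 1 <;> ring
  · ring

/-- the boundary of a triangle in the complex plane -/
def C6 : Set ℂ := {z | rho z = 6}

theorem ne_zero_of_mem {z : ℂ} (hz : z ∈ C6) : z ≠ 0 := by
  rintro rfl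
  have : rho 0 = 6 := hz
  simp [rho] at this

theorem continuous_circle_coe : Continuous (fun w : Circle => (w : ℂ)) := by fun_prop

/-- radial homeomorphism of the triangle boundary with the unit circle -/
noncomputable def triHomeo : C6 ≃ₜ Circle where
  toFun z := ⟨(‖z.1‖⁻¹ : ℝ) * z.1, by
    have h : ‖z.1‖ ≠ 0 := norm_ne_zero_iff.2 (ne_zero_of_mem z.2)
    refine mem_sphere_zero_iff_norm.2 ?_
    rw [norm_mul, Complex.norm_real, norm_inv, norm_norm]
    exact inv_mul_cancel₀ h⟩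
  invFun w := ⟨((6 / rho (w : ℂ) : ℝ) : ℂ) * (w : ℂ), by
    have h : 0 < rho (w : ℂ) := rho_pos (Circle.coe_ne_zero w)
    show rho _ = 6
    rw [rho_smul (by positivity)]
    field_simp⟩
  left_inv z := by
    apply Subtype.ext
    have h : ‖z.1‖ ≠ 0 := norm_ne_zero_iff.2 (ne_zero_of_mem z.2)
    have h0 : 0 < ‖z.1‖ := norm_pos_iff.2 (ne_zero_of_mem z.2)
    have h2 : rho z.1 = 6 := z.2
    show ((6 / rho ((‖z.1‖⁻¹ : ℝ) * z.1) : ℝ) : ℂ) * (((‖z.1‖⁻¹ : ℝ) : ℂ) * z.1) = z.1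
    rw [rho_smul (by positivity), h2, ← mul_assoc, ← Complex.ofReal_mul]
    have : (6 / (‖z.1‖⁻¹ * 6) * ‖z.1‖⁻¹ : ℝ) = 1 := by field_simp
    rw [this]; simp
  right_inv w := by
    apply Circle.ext
    have h : 0 < rho (w : ℂ) := rho_pos (Circle.coe_ne_zero w)
    show ((‖((6 / rho (w : ℂ) : ℝ) : ℂ) * (w : ℂ)‖⁻¹ : ℝ) : ℂ)
      * (((6 / rho (w : ℂ) : ℝ) : ℂ) * (w : ℂ)) = w
    rw [norm_mul, Circle.norm_coe, mul_one, Complex.norm_real, Real.norm_of_nonneg (by positivity),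
      ← mul_assoc, ← Complex.ofReal_mul]
    have : ((6 / rho (w : ℂ))⁻¹ * (6 / rho (w : ℂ)) : ℝ) = 1 := by field_simp
    rw [this]; simp
  continuous_toFun := by
    refine Continuous.subtype_mk ?_ _
    have h : Continuous (fun z : C6 => ‖z.1‖⁻¹) :=
      Continuous.inv₀ (by fun_prop) (fun z => norm_ne_zero_iff.2 (ne_zero_of_mem z.2))
    exact (Complex.continuous_ofReal.comp h).mul continuous_subtype_val
  continuous_invFun := by
    refine Continuous.subtype_mk ?_ _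
    have h : Continuous (fun w : Circle => (6 / rho (w : ℂ) : ℝ)) :=
      Continuous.div continuous_const (continuous_rho.comp continuous_circle_coe)
        (fun w => (rho_pos (Circle.coe_ne_zero w)).ne')
    exact (Complex.continuous_ofReal.comp h).mul continuous_circle_coe

/-- position of a vertex in the flat model -/
noncomputable def P4 (v : Vx) : ℂ × ℂ :=
  (⟨((flat v).1 : ℝ), ((flat v).2.1 : ℝ)⟩, ⟨((flat v).2.2.1 : ℝ), ((flat v).2.2.2 : ℝ)⟩)

/-- linear realisation map in the flat model -/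
noncomputable def L4 : (Vx → ℝ) →ₗ[ℝ] ℂ × ℂ := Fintype.linearCombination ℝ P4

theorem L4_apply (b : Vx → ℝ) : L4 b = (∑ v, b v • (P4 v).1, ∑ v, b v • (P4 v).2) := by
  unfold L4
  rw [Fintype.linearCombination_apply]
  apply Prod.ext
  · simp [Prod.fst_sum]
  · simp [Prod.snd_sum]

theorem L4_0 (b : Vx → ℝ) : (L4 b).1.re = wsum b (fun v => (flat v).1) := by
  rw [L4_apply]; simp [P4, wsum]

theorem L4_1 (b : Vx → ℝ) : (L4 b).1.im = wsum b (fun v => (flat v).2.1) := by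
  rw [L4_apply]; simp [P4, wsum]

theorem L4_2 (b : Vx → ℝ) : (L4 b).2.re = wsum b (fun v => (flat v).2.2.1) := by
  rw [L4_apply]; simp [P4, wsum]

theorem L4_3 (b : Vx → ℝ) : (L4 b).2.im = wsum b (fun v => (flat v).2.2.2) := by
  rw [L4_apply]; simp [P4, wsum]

theorem continuous_L4 : Continuous L4 := LinearMap.continuous_of_finiteDimensional L4

theorem wsum_ev4 (f : ℤ × ℤ × ℤ × ℤ × ℤ) (b : Vx → ℝ) (hb : ∑ v, b v = 1) :
    wsum b (ev4 f) = f.1 * (L4 b).1.re + f.2.1 * (L4 b).1.im + f.2.2.1 * (L4 b).2.re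
      + f.2.2.2.1 * (L4 b).2.im + f.2.2.2.2 := by
  rw [L4_0, L4_1, L4_2, L4_3]
  have h : (f.2.2.2.2 : ℝ) = f.2.2.2.2 * ∑ v, b v := by rw [hb]; ring
  rw [h]
  unfold wsum ev4
  rw [Finset.mul_sum, Finset.mul_sum, Finset.mul_sum, Finset.mul_sum, Finset.mul_sum,
    ← Finset.sum_add_distrib, ← Finset.sum_add_distrib, ← Finset.sum_add_distrib,
    ← Finset.sum_add_distrib]
  congr 1; funext v; push_cast; ring

theorem determined4 (f : ℤ × ℤ × ℤ × ℤ × ℤ) : Determined (L4 : (Vx → ℝ) → ℂ × ℂ) (ev4 f) := by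
  intro b b' hb hb' h
  rw [wsum_ev4 f b hb, wsum_ev4 f b' hb', h]

theorem detect4 (b b' : Vx → ℝ) (_ : ∑ v, b v = 1) (_ : ∑ v, b' v = 1)
    (h : ∀ ψ ∈ coords4, wsum b ψ = wsum b' ψ) : L4 b = L4 b' := by
  apply Prod.ext
  · apply Complex.ext
    · rw [L4_0, L4_0]; exact h _ (by simp [coords4])
    · rw [L4_1, L4_1]; exact h _ (by simp [coords4])
  · apply Complex.ext
    · rw [L4_2, L4_2]; exact h _ (by simp [coords4])
    · rw [L4_3, L4_3]; exact h _ (by simp [coords4])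

/-- negation of a functional -/
def negG (f : ℤ × ℤ × ℤ × ℤ × ℤ) : ℤ × ℤ × ℤ × ℤ × ℤ :=
  (-f.1, -f.2.1, -f.2.2.1, -f.2.2.2.1, -f.2.2.2.2)

theorem ev4_negG (f : ℤ × ℤ × ℤ × ℤ × ℤ) : ev4 (negG f) = fun v => - ev4 f v := by
  funext v; simp only [ev4, negG]; ring

theorem ev4_zero : ev4 (0, 0, 0, 0, 0) = fun _ => 0 := by
  funext v; simp [ev4]

theorem injOn_L4 : InjOn L4 (complexSet tris) := by
  have h1 := pairwise_of_pairB ev4 tris sep4 sep4_ok
  haveI : Std.Symm (fun s t : List Vx => ∃ f, Sep s t (ev4 f)) := by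
    refine ⟨?_⟩
    rintro s t ⟨f, hf⟩
    exact ⟨negG f, by rw [ev4_negG]; exact hf.symm⟩
  apply injOn_complexSet
  · intro s hs t ht
    obtain ⟨f, hf⟩ := List.Pairwise.forall_of_forall
      (R := fun s t => ∃ f, Sep s t (ev4 f))
      (fun s _ => ⟨(0, 0, 0, 0, 0), by rw [ev4_zero]; exact Sep.refl s⟩) h1 hs ht
    exact ⟨ev4 f, hf, determined4 f⟩
  · intro s hs v hv
    obtain ⟨f, hf⟩ := ind_of_indB ev4 tris ind4 ind4_ok s hs v hv
    exact ⟨ev4 f, hf.1, hf.2, determined4 f⟩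

/-- the three edge functionals (minus 6), first factor -/
def eA (k : Fin 3) : ℤ × ℤ × ℤ × ℤ × ℤ :=
  ![(1, 1, 0, 0, -6), (-2, 1, 0, 0, -6), (1, -2, 0, 0, -6)] k

/-- the three edge functionals (minus 6), second factor -/
def eB (k : Fin 3) : ℤ × ℤ × ℤ × ℤ × ℤ :=
  ![(0, 0, 1, 1, -6), (0, 0, -2, 1, -6), (0, 0, 1, -2, -6)] k

theorem flat_le : ∀ v : Vx, ∀ k : Fin 3, ev4 (eA k) v ≤ 0 ∧ ev4 (eB k) v ≤ 0 := by decide +kernel

theorem flat_edge : ∀ t ∈ tris, (∃ k : Fin 3, ∀ v ∈ t, ev4 (eA k) v = 0) ∧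
    (∃ k : Fin 3, ∀ v ∈ t, ev4 (eB k) v = 0) := by decide +kernel

theorem rho_eq {z : ℂ} (h0 : z.re + z.im ≤ 6) (h1 : z.im - 2 * z.re ≤ 6)
    (h2 : z.re - 2 * z.im ≤ 6)
    (h : z.re + z.im = 6 ∨ z.im - 2 * z.re = 6 ∨ z.re - 2 * z.im = 6) : rho z = 6 := by
  unfold rho
  apply le_antisymm
  · exact max_le (max_le h0 h1) h2
  · rcases h with h | h | h
    · rw [← h]; exact le_trans (le_max_left _ _) (le_max_left _ _)
    · rw [← h]; exact le_trans (le_max_right _ _) (le_max_left _ _)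
    · rw [← h]; exact le_max_right _ _

theorem image4_sub : L4 '' complexSet tris ⊆ C6 ×ˢ C6 := by
  rintro _ ⟨b, ⟨t, ht, hb⟩, rfl⟩
  have hs := cell_sum hb
  have hA : ∀ k, wsum b (ev4 (eA k)) ≤ 0 := fun k => wsum_nonpos hb (fun v _ => (flat_le v k).1)
  have hB : ∀ k, wsum b (ev4 (eB k)) ≤ 0 := fun k => wsum_nonpos hb (fun v _ => (flat_le v k).2)
  have hz : ∀ f, (∀ v ∈ t, ev4 f v = 0) → wsum b (ev4 f) = 0 := fun f hf =>
    le_antisymm (wsum_nonpos hb (fun v hv => (hf v hv).le))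
      (wsum_nonneg hb (fun v hv => (hf v hv).ge))
  obtain ⟨⟨k, hk⟩, ⟨l, hl⟩⟩ := flat_edge t ht
  have hk' := hz _ hk
  have hl' := hz _ hl
  have a0 := hA 0
  have a1 := hA 1
  have a2 := hA 2
  have b0 := hB 0
  have b1 := hB 1
  have b2 := hB 2
  rw [wsum_ev4 _ b hs] at a0 a1 a2 b0 b1 b2 hk' hl'
  simp only [eA, eB, Matrix.cons_val_zero, Matrix.cons_val_one, Matrix.cons_val, Int.cast_one,
    Int.cast_zero, Int.cast_neg, Int.cast_ofNat] at a0 a1 a2 b0 b1 b2
  constructor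
  · apply rho_eq
    · linarith
    · linarith
    · linarith
    · fin_cases k
      · left; simp [eA] at hk'; linarith
      · right; left; simp [eA] at hk'; linarith
      · right; right; simp [eA] at hk'; linarith
  · apply rho_eq
    · linarith
    · linarith
    · linarith
    · fin_cases l
      · left; simp [eB] at hl'; linarith
      · right; left; simp [eB] at hl'; linarith
      · right; right; simp [eB] at hl'; linarith

/-- corners of the triangle boundary -/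
noncomputable def cpt (i : Fin 3) : ℂ := ![(⟨6, 0⟩ : ℂ), ⟨0, 6⟩, ⟨-6, -6⟩] i

theorem seg_of_rho {z : ℂ} (hz : rho z = 6) :
    ∃ i : Fin 3, ∃ s t : ℝ, 0 ≤ s ∧ 0 ≤ t ∧ s + t = 1 ∧ z = s • cpt i + t • cpt (i + 1) := by
  unfold rho at hz
  have h0 : z.re + z.im ≤ 6 := hz ▸ le_trans (le_max_left _ _) (le_max_left _ _)
  have h1 : z.im - 2 * z.re ≤ 6 := hz ▸ le_trans (le_max_right _ _) (le_max_left _ _)
  have h2 : z.re - 2 * z.im ≤ 6 := hz ▸ le_max_right _ _
  have h : z.re + z.im = 6 ∨ z.im - 2 * z.re = 6 ∨ z.re - 2 * z.im = 6 := by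
    rcases max_choice (max (z.re + z.im) (z.im - 2 * z.re)) (z.re - 2 * z.im) with h | h
    · rcases max_choice (z.re + z.im) (z.im - 2 * z.re) with h' | h'
      · left; rw [← h', ← h]; exact hz
      · right; left; rw [← h', ← h]; exact hz
    · right; right; rw [← h]; exact hz
  rcases h with h | h | h
  · refine ⟨0, z.re / 6, 1 - z.re / 6, by linarith, by linarith, by ring, ?_⟩
    apply Complex.ext <;> simp [cpt] <;> linarith
  · refine ⟨1, 1 + z.re / 6, - z.re / 6, by linarith, by linarith, by ring, ?_⟩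
    apply Complex.ext <;> simp [cpt] <;> linarith
  · refine ⟨2, - z.im / 6, 1 + z.im / 6, by linarith, by linarith, by ring, ?_⟩
    apply Complex.ext <;> simp [cpt] <;> linarith

/-- the corner vertices of the nine cells -/
def cor (i j : Fin 3) : Vx :=
  ![![(10 : Vx), 8, 16], ![(12 : Vx), 13, 15], ![(11 : Vx), 9, 17]] i j

theorem cor_mem : ∀ i j : Fin 3, [cor i j, cor (i + 1) j, cor i (j + 1), cor (i + 1) (j + 1)] ∈
    cov4.map Prod.fst := by decide +kernel

theorem flat_cor : ∀ i j : Fin 3, flat (cor i j) =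
    ((![6, 0, -6] : Fin 3 → ℤ) i, (![0, 6, -6] : Fin 3 → ℤ) i,
      (![6, 0, -6] : Fin 3 → ℤ) j, (![0, 6, -6] : Fin 3 → ℤ) j) := by decide +kernel

theorem P4_cor (i j : Fin 3) : P4 (cor i j) = (cpt i, cpt j) := by
  unfold P4
  rw [flat_cor]
  apply Prod.ext
  · fin_cases i <;> simp [cpt]
  · fin_cases j <;> simp [cpt]

theorem cover4 (Q : List Vx) (hQ : Q ∈ cov4.map Prod.fst) :
    L4 '' cell Q ⊆ L4 '' complexSet tris := by
  obtain ⟨c, hc, rfl⟩ := List.mem_map.1 hQ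
  obtain ⟨h1, h2, h3⟩ := cov4_ok c hc
  refine cover_image L4 coords4 detect4 tris c.1 _ _ h1 ?_ (chain_of_chainB _ _ _ _ _ h3)
  intro h; apply h2; simpa using h

theorem image4_sup : C6 ×ˢ C6 ⊆ L4 '' complexSet tris := by
  rintro ⟨z, w⟩ ⟨hz, hw⟩
  obtain ⟨i, s, s', hs, hs', hss, hz'⟩ := seg_of_rho (z := z) hz
  obtain ⟨j, r, r', hr, hr', hrr, hw'⟩ := seg_of_rho (z := w) hw
  apply cover4 _ (cor_mem i j)
  unfold L4
  rw [← hull_eq_image P4]
  have hc := convex_convexHull ℝ (P4 '' {v | v ∈ [cor i j, cor (i + 1) j, cor i (j + 1),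
    cor (i + 1) (j + 1)]})
  have m : ∀ v ∈ [cor i j, cor (i + 1) j, cor i (j + 1), cor (i + 1) (j + 1)], P4 v ∈
      convexHull ℝ (P4 '' {v | v ∈ [cor i j, cor (i + 1) j, cor i (j + 1),
    cor (i + 1) (j + 1)]}) := fun v hv => subset_convexHull ℝ _ ⟨v, hv, rfl⟩
  have m1 := m (cor i j) (by simp)
  have m2 := m (cor (i + 1) j) (by simp)
  have m3 := m (cor i (j + 1)) (by simp)
  have m4 := m (cor (i + 1) (j + 1)) (by simp)
  have a1 := hc m1 m3 hr hr' hrr
  have a2 := hc m2 m4 hr hr' hrr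
  have a3 := hc a1 a2 hs hs' hss
  convert! a3 using 1
  rw [P4_cor, P4_cor, P4_cor, P4_cor, hz', hw']
  apply Prod.ext
  · simp only [Prod.fst_add, Prod.smul_fst]
    rw [← add_smul, ← add_smul, hrr, one_smul, one_smul]
  · simp only [Prod.snd_add, Prod.smul_snd]
    rw [← add_smul, hss, one_smul]

theorem image4 : L4 '' complexSet tris = C6 ×ˢ C6 := Subset.antisymm image4_sub image4_sup

/-- The triangulated complex is homeomorphic to the torus. -/
noncomputable def complexTorus : complexSet tris ≃ₜ (AddCircle (1 : ℝ) × AddCircle (1 : ℝ)) :=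
  (imageHomeo L4 continuous_L4 tris injOn_L4).trans <|
    (Homeomorph.setCongr image4).trans <|
      (Homeomorph.Set.prod C6 C6).trans <|
        (triHomeo.prodCongr triHomeo).trans
          ((AddCircle.homeomorphCircle (T := 1) one_ne_zero).symm.prodCongr
            (AddCircle.homeomorphCircle (T := 1) one_ne_zero).symm)

end Pool.Agent.Lib.MP_cf103f_co
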