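import Pool.Agent.Lib.MP_cf103f_co.Space
import Pool.Agent.Lib.MP_cf103f_co.Flat

set_option autoImplicit false
set_option linter.style.haveILetI false
set_option maxRecDepth 100000
set_option maxHeartbeats 4000000

namespace Pool.Agent.Lib.MP_cf103f_co

open Set

/-- the vertices of the i-th face -/
def fc (i : Fin 17) : List Vx := faces.getD i.1 []

theorem fc_mem : ∀ i : Fin 17, fc i ∈ faces := by decide +kernel

theorem mem_faces : ∀ Q ∈ faces, ∃ i : Fin 17, fc i = Q := by decide +kernel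

/-- the common vertices of two faces -/
def cm (i j : Fin 17) : List Vx := (fc i).filter (fun v => decide (v ∈ fc j))

open Classical in
/-- the finite vertex sets of the 17 faces -/
noncomputable def SF (i : Fin 17) : Finset E3 := (fc i).toFinset.image P3

theorem coe_SF (i : Fin 17) : (SF i : Set E3) = P3 '' {v | v ∈ fc i} := by
  unfold SF
  rw [Finset.coe_image]
  congr 1
  ext v; simp

theorem hull_SF (i : Fin 17) : convexHull ℝ (SF i : Set E3) = L3 '' cell (fc i) := by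
  rw [coe_SF, hull_eq_image]; rfl

theorem sepF_forall (i j : Fin 17) : ∃ f, Sep (fc i) (fc j) (ev3 f) :=
  sep3_forall faces sepF sepF_ok _ (fc_mem i) _ (fc_mem j)

theorem mem_cm {i j : Fin 17} {v : Vx} : v ∈ cm i j ↔ v ∈ fc i ∧ v ∈ fc j := by
  simp [cm]

theorem inter_eq (i j : Fin 17) :
    L3 '' cell (fc i) ∩ L3 '' cell (fc j) = L3 '' cell (cm i j) := by
  obtain ⟨f, hf⟩ := sepF_forall i j
  apply Subset.antisymm
  · rintro x ⟨⟨b, hb, rfl⟩, ⟨b', hb', he⟩⟩
    have h := hf.supp hb hb' (determined3 f b b' (cell_sum hb) (cell_sum hb') he.symm)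
    refine ⟨b, ⟨hb.1, fun v hv => ?_⟩, rfl⟩
    by_cases h1 : v ∈ fc i
    · exact h.1 v (fun h2 => hv (mem_cm.2 ⟨h1, h2⟩))
    · exact hb.2 v h1
  · rintro x ⟨b, hb, rfl⟩
    exact ⟨⟨b, cell_mono (fun v hv => (mem_cm.1 hv).1) hb, rfl⟩,
      ⟨b, cell_mono (fun v hv => (mem_cm.1 hv).2) hb, rfl⟩⟩

theorem exposed (i j : Fin 17) :
    IsExposed ℝ (L3 '' cell (fc i)) (L3 '' cell (fc i) ∩ L3 '' cell (fc j)) := by
  obtain ⟨f, hf⟩ := sepF_forall i j
  rintro ⟨z, ⟨b0, hb0, rfl⟩, ⟨b1, hb1, he⟩⟩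
  refine ⟨lin f, ?_⟩
  have hle : ∀ b ∈ cell (fc i), lin f (L3 b) + f.2.2.2 ≤ 0 := by
    intro b hb
    rw [← wsum_ev3 f b (cell_sum hb)]
    exact wsum_nonpos hb (fun v hv => (hf.1 v hv).1)
  have hge : ∀ b ∈ cell (fc j), 0 ≤ lin f (L3 b) + f.2.2.2 := by
    intro b hb
    rw [← wsum_ev3 f b (cell_sum hb)]
    exact wsum_nonneg hb (fun v hv => (hf.2 v hv).1)
  apply Subset.antisymm
  · rintro x ⟨⟨b, hb, rfl⟩, ⟨b', hb', he'⟩⟩
    refine ⟨⟨b, hb, rfl⟩, ?_⟩
    rintro _ ⟨c, hc, rfl⟩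
    have h1 := hle c hc
    have h2 := hge b' hb'
    rw [he'] at h2
    linarith
  · rintro x ⟨⟨b, hb, rfl⟩, hmax⟩
    have h1 := hmax (L3 b0) ⟨b0, hb0, rfl⟩
    have h2 := hge b1 hb1
    rw [he] at h2
    have h3 : 0 ≤ wsum b (ev3 f) := by
      rw [wsum_ev3 f b (cell_sum hb)]; linarith
    have h4 := supp_of_le hb (fun v hv => (hf.1 v hv).1) h3
    refine ⟨⟨b, hb, rfl⟩, ⟨b, ⟨hb.1, fun v hv => ?_⟩, rfl⟩⟩
    by_cases h5 : v ∈ fc i
    · exact h4 v (fun h0 => hv ((hf.1 v h5).2 h0))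
    · exact hb.2 v h5

theorem vectorSpan_hull (s : Set E3) : vectorSpan ℝ (convexHull ℝ s) = vectorSpan ℝ s := by
  rw [← direction_affineSpan, affineSpan_convexHull, direction_affineSpan]

theorem vectorSpan_inter (i j : Fin 17) :
    vectorSpan ℝ (L3 '' cell (fc i) ∩ L3 '' cell (fc j)) = vectorSpan ℝ (P3 '' {v | v ∈ cm i j}) := by
  rw [inter_eq]
  have : L3 '' cell (cm i j) = convexHull ℝ (P3 '' {v | v ∈ cm i j}) := by
    rw [hull_eq_image]; rfl
  rw [this, vectorSpan_hull]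

theorem cm_len : ∀ i j : Fin 17, i ≠ j → (cm i j).length ≤ 2 := by decide +kernel

theorem pair_of_len {i j : Fin 17} (h : i ≠ j) :
    cm i j = [] ∨ (∃ u, cm i j = [u]) ∨ (∃ u v, cm i j = [u, v]) := by
  have := cm_len i j h
  match hl : cm i j with
  | [] => exact Or.inl rfl
  | [u] => exact Or.inr (Or.inl ⟨u, rfl⟩)
  | [u, v] => exact Or.inr (Or.inr ⟨u, v, rfl⟩)
  | _ :: _ :: _ :: _ => rw [hl] at this; simp at this

theorem finrank_le {i j : Fin 17} (h : i ≠ j) :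
    Module.finrank ℝ (vectorSpan ℝ (L3 '' cell (fc i) ∩ L3 '' cell (fc j))) ≤ 1 := by
  rw [vectorSpan_inter, ← collinear_iff_finrank_le_one]
  rcases pair_of_len h with h | ⟨u, h⟩ | ⟨u, v, h⟩
  · rw [h]; simpa using collinear_empty ℝ E3
  · rw [h]
    have : P3 '' {v | v ∈ [u]} = {P3 u} := by ext x; simp [eq_comm]
    rw [this]; exact collinear_singleton ℝ _
  · rw [h]
    have : P3 '' {w | w ∈ [u, v]} = {P3 u, P3 v} := by
      ext x; simp [eq_comm]
    rw [this]; exact collinear_pair ℝ _ _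

theorem lin_P3 (f : ℤ × ℤ × ℤ × ℤ) (v : Vx) : lin f (P3 v) = ev3 f v - f.2.2.2 := by
  rw [lin_apply]
  simp only [P3, ev3]
  push_cast
  simp

/-- the plane of a face -/
def nr (i : Fin 17) : ℤ × ℤ × ℤ × ℤ := normals.getD i.1 (0, 0, 0, 0)

theorem nr_zero : ∀ i : Fin 17, ∀ v ∈ fc i, ev3 (nr i) v = 0 := by decide +kernel

theorem nr_ne : ∀ i : Fin 17, (nr i).1 ≠ 0 ∨ (nr i).2.1 ≠ 0 ∨ (nr i).2.2.1 ≠ 0 := by
  decide +kernel

theorem lin_ne (i : Fin 17) : (lin (nr i) : E3 →L[ℝ] ℝ).toLinearMap ≠ 0 := by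
  intro h
  have h' : ∀ x : E3, lin (nr i) x = 0 := fun x => by
    have := congrArg (fun g : E3 →ₗ[ℝ] ℝ => g x) h
    simpa using this
  rcases nr_ne i with h1 | h1 | h1
  · have := h' (EuclideanSpace.single 0 1)
    rw [lin_apply] at this
    simp at this
    exact h1 this
  · have := h' (EuclideanSpace.single 1 1)
    rw [lin_apply] at this
    simp at this
    exact h1 this
  · have := h' (EuclideanSpace.single 2 1)
    rw [lin_apply] at this
    simp at this
    exact h1 this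

theorem face_tri : ∀ i : Fin 17, ∃ t ∈ tris, t.length = 3 ∧ t.Nodup ∧ ∀ v ∈ t, v ∈ fc i := by
  decide +kernel

theorem vspan_face_le (i : Fin 17) :
    vectorSpan ℝ (P3 '' {v | v ∈ fc i}) ≤ LinearMap.ker (lin (nr i) : E3 →L[ℝ] ℝ).toLinearMap := by
  rw [vectorSpan_def, Submodule.span_le]
  rintro _ ⟨_, ⟨u, hu, rfl⟩, _, ⟨v, hv, rfl⟩, rfl⟩
  simp only [SetLike.mem_coe, LinearMap.mem_ker, ContinuousLinearMap.coe_coe, vsub_eq_sub, map_sub]
  rw [lin_P3, lin_P3, nr_zero i u hu, nr_zero i v hv]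
  simp

theorem finrank_face_ge (i : Fin 17) :
    2 ≤ Module.finrank ℝ (vectorSpan ℝ (P3 '' {v | v ∈ fc i})) := by
  obtain ⟨t, ht, hl, hn, hs⟩ := face_tri i
  match t, hl with
  | [a, b, c], _ =>
    simp only [List.nodup_cons, List.mem_cons, List.not_mem_nil, or_false, not_or,
      List.nodup_nil, and_true, not_false_eq_true] at hn
    obtain ⟨⟨hab, hac⟩, hbc⟩ := hn
    obtain ⟨f, hf1, hf2⟩ := ind_of_indB ev3 tris ind3 ind3_ok _ ht b (by simp)
    obtain ⟨g, hg1, hg2⟩ := ind_of_indB ev3 tris ind3 ind3_ok _ ht c (by simp)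
    have fa := hf1 a (by simp) hab
    have fc' := hf1 c (by simp) (Ne.symm hbc)
    have ga := hg1 a (by simp) hac
    have gb := hg1 b (by simp) hbc
    have hli : LinearIndependent ℝ ![P3 b - P3 a, P3 c - P3 a] := by
      rw [LinearIndependent.pair_iff]
      intro s r h
      have h1 := congrArg (lin f) h
      have h2 := congrArg (lin g) h
      simp only [map_add, map_smul, map_sub, lin_P3, smul_eq_mul, map_zero, fa, fc', ga, gb] at h1 h2
      have hf2' : (ev3 f b : ℝ) ≠ 0 := by exact_mod_cast hf2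
      have hg2' : (ev3 g c : ℝ) ≠ 0 := by exact_mod_cast hg2
      constructor
      · have : s * (ev3 f b : ℝ) = 0 := by push_cast at h1; linarith
        exact (mul_eq_zero.1 this).resolve_right hf2'
      · have : r * (ev3 g c : ℝ) = 0 := by push_cast at h2; linarith
        exact (mul_eq_zero.1 this).resolve_right hg2'
    have h3 : Module.finrank ℝ (Submodule.span ℝ (Set.range ![P3 b - P3 a, P3 c - P3 a])) = 2 := by
      rw [finrank_span_eq_card hli]; simp
    rw [← h3]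
    apply Submodule.finrank_mono
    rw [Submodule.span_le]
    rintro _ ⟨k, rfl⟩
    have ha := hs a (by simp)
    have hb := hs b (by simp)
    have hc := hs c (by simp)
    fin_cases k
    · exact vsub_mem_vectorSpan ℝ ⟨b, hb, rfl⟩ ⟨a, ha, rfl⟩
    · exact vsub_mem_vectorSpan ℝ ⟨c, hc, rfl⟩ ⟨a, ha, rfl⟩

theorem finrank_face (i : Fin 17) :
    Module.finrank ℝ (vectorSpan ℝ (P3 '' {v | v ∈ fc i})) = 2 := by
  apply le_antisymm _ (finrank_face_ge i)
  have h1 := Submodule.finrank_mono (vspan_face_le i)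
  have h2 := Module.Dual.finrank_ker_add_one_of_ne_zero (lin_ne i)
  have h3 : Module.finrank ℝ E3 = 3 := by simp
  rw [h3] at h2
  omega

theorem off_plane : ∀ i j : Fin 17, i ≠ j → (cm i j).length = 2 →
    ∃ d ∈ fc j, ev3 (nr i) d ≠ 0 := by decide +kernel

theorem fc_ne : ∀ i : Fin 17, ∃ v, v ∈ fc i := by decide +kernel

theorem not_coplanar {i j : Fin 17} (hij : i ≠ j) (hl : (cm i j).length = 2) :
    ¬ Coplanar ℝ (L3 '' cell (fc i) ∪ L3 '' cell (fc j)) := by
  intro h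
  rw [coplanar_iff_finrank_le_two] at h
  have e1 : L3 '' cell (fc i) = convexHull ℝ (P3 '' {v | v ∈ fc i}) := by rw [hull_eq_image]; rfl
  have e2 : L3 '' cell (fc j) = convexHull ℝ (P3 '' {v | v ∈ fc j}) := by rw [hull_eq_image]; rfl
  have h1 : vectorSpan ℝ (P3 '' {v | v ∈ fc i}) ≤
      vectorSpan ℝ (L3 '' cell (fc i) ∪ L3 '' cell (fc j)) := by
    apply vectorSpan_mono
    rw [e1]
    exact (subset_convexHull ℝ _).trans subset_union_left
  have h2 : vectorSpan ℝ (P3 '' {v | v ∈ fc i}) =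
      vectorSpan ℝ (L3 '' cell (fc i) ∪ L3 '' cell (fc j)) :=
    Submodule.eq_of_le_of_finrank_le h1 (by rw [finrank_face]; exact h)
  obtain ⟨d, hd, hne⟩ := off_plane i j hij hl
  obtain ⟨a, ha⟩ := fc_ne i
  have h3 : P3 d - P3 a ∈ vectorSpan ℝ (L3 '' cell (fc i) ∪ L3 '' cell (fc j)) := by
    apply vsub_mem_vectorSpan ℝ
    · right; rw [e2]; exact subset_convexHull ℝ _ ⟨d, hd, rfl⟩
    · left; rw [e1]; exact subset_convexHull ℝ _ ⟨a, ha, rfl⟩
  rw [← h2] at h3
  have h4 := vspan_face_le i h3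
  simp only [LinearMap.mem_ker, ContinuousLinearMap.coe_coe, map_sub] at h4
  rw [lin_P3, lin_P3, nr_zero i a ha] at h4
  apply hne
  have h5 : (ev3 (nr i) d : ℝ) = 0 := by push_cast at h4; linarith
  exact_mod_cast h5

theorem pos_inj : ∀ u v : Vx, pos u = pos v → u = v := by decide +kernel

theorem P3_inj {u v : Vx} (h : P3 u = P3 v) : u = v := by
  apply pos_inj
  have h0 := congrArg (fun x : E3 => x 0) h
  have h1 := congrArg (fun x : E3 => x 1) h
  have h2 := congrArg (fun x : E3 => x 2) h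
  simp [P3] at h0 h1 h2
  apply Prod.ext
  · exact h0
  · apply Prod.ext
    · exact h1
    · exact h2

theorem cm_nodup : ∀ i j : Fin 17, (cm i j).Nodup := by decide +kernel

theorem len_of_finrank {i j : Fin 17} (hij : i ≠ j)
    (h : Module.finrank ℝ (vectorSpan ℝ (L3 '' cell (fc i) ∩ L3 '' cell (fc j))) = 1) :
    (cm i j).length = 2 := by
  rw [vectorSpan_inter] at h
  rcases pair_of_len hij with h' | ⟨u, h'⟩ | ⟨u, v, h'⟩
  · rw [h'] at h
    have : P3 '' {v | v ∈ ([] : List Vx)} = ∅ := by ext x; simp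
    rw [this, vectorSpan_empty, finrank_bot] at h
    exact absurd h (by norm_num)
  · rw [h'] at h
    have : P3 '' {v | v ∈ [u]} = {P3 u} := by ext x; simp [eq_comm]
    rw [this, vectorSpan_singleton, finrank_bot] at h
    exact absurd h (by norm_num)
  · rw [h']; rfl

theorem finrank_of_len {i j : Fin 17} (hij : i ≠ j) (h : (cm i j).length = 2) :
    Module.finrank ℝ (vectorSpan ℝ (L3 '' cell (fc i) ∩ L3 '' cell (fc j))) = 1 := by
  apply le_antisymm (finrank_le hij)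
  rw [vectorSpan_inter]
  rcases pair_of_len hij with h' | ⟨u, h'⟩ | ⟨u, v, h'⟩
  · rw [h'] at h; simp at h
  · rw [h'] at h; simp at h
  · rw [h']
    have hn := cm_nodup i j
    rw [h'] at hn
    have huv : u ≠ v := by simpa using hn
    by_contra hlt
    have h0 : Module.finrank ℝ (vectorSpan ℝ (P3 '' {w | w ∈ [u, v]})) = 0 := by omega
    rw [Submodule.finrank_eq_zero] at h0
    have h1 : P3 u - P3 v ∈ vectorSpan ℝ (P3 '' {w | w ∈ [u, v]}) :=
      vsub_mem_vectorSpan ℝ ⟨u, by simp, rfl⟩ ⟨v, by simp, rfl⟩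
    rw [h0, Submodule.mem_bot, sub_eq_zero] at h1
    exact huv (P3_inj h1)

theorem adj_pairs : ∀ p ∈ ([(0, 3), (0, 4), (0, 7), (1, 3), (1, 4), (1, 7), (3, 4), (3, 7), (4, 7),
    (0, 5), (0, 6), (0, 8), (2, 5), (2, 6), (2, 8), (5, 6), (5, 8), (6, 8), (1, 2)] :
      List (Fin 17 × Fin 17)), p.1 ≠ p.2 ∧ (cm p.1 p.2).length = 2 := by decide +kernel

theorem gadget : ∀ y n f a b : Fin 4, y ≠ n → y ≠ f → n ≠ f → a ≠ y → a ≠ n → a ≠ f →
    b ≠ y → b ≠ n → b ≠ f → a = b := by decide +kernel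

theorem no_colouring (c : Fin 17 → Fin 4)
    (h : ∀ i j : Fin 17, i ≠ j → (cm i j).length = 2 → c i ≠ c j) : False := by
  have H : ∀ p ∈ ([(0, 3), (0, 4), (0, 7), (1, 3), (1, 4), (1, 7), (3, 4), (3, 7), (4, 7),
    (0, 5), (0, 6), (0, 8), (2, 5), (2, 6), (2, 8), (5, 6), (5, 8), (6, 8), (1, 2)] :
      List (Fin 17 × Fin 17)), c p.1 ≠ c p.2 := fun p hp =>
    h p.1 p.2 (adj_pairs p hp).1 (adj_pairs p hp).2
  have e1 := gadget (c 7) (c 3) (c 4) (c 0) (c 1) (Ne.symm (H (3, 7) (by simp)))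
    (Ne.symm (H (4, 7) (by simp))) (H (3, 4) (by simp)) (H (0, 7) (by simp)) (H (0, 3) (by simp))
    (H (0, 4) (by simp)) (H (1, 7) (by simp)) (H (1, 3) (by simp)) (H (1, 4) (by simp))
  have e2 := gadget (c 8) (c 5) (c 6) (c 0) (c 2) (Ne.symm (H (5, 8) (by simp)))
    (Ne.symm (H (6, 8) (by simp))) (H (5, 6) (by simp)) (H (0, 8) (by simp)) (H (0, 5) (by simp))
    (H (0, 6) (by simp)) (H (2, 8) (by simp)) (H (2, 5) (by simp)) (H (2, 6) (by simp))
  exact H (1, 2) (by simp) (e1.symm.trans e2)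

theorem iUnion_hull : (⋃ i, convexHull ℝ (SF i : Set E3)) = L3 '' complexSet tris := by
  rw [← union3]
  ext x
  simp only [mem_iUnion]
  constructor
  · rintro ⟨i, hi⟩
    rw [hull_SF] at hi
    exact ⟨fc i, fc_mem i, hi⟩
  · rintro ⟨Q, hQ, hx⟩
    obtain ⟨i, rfl⟩ := mem_faces Q hQ
    exact ⟨i, by rw [hull_SF]; exact hx⟩

/-- The union of the faces is homeomorphic to the torus. -/
noncomputable def torusHomeo :
    ↥(⋃ i, convexHull ℝ (SF i : Set E3)) ≃ₜ (AddCircle (1 : ℝ) × AddCircle (1 : ℝ)) :=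
  (Homeomorph.setCongr iUnion_hull).trans <|
    (imageHomeo L3 continuous_L3 tris injOn_L3).symm.trans complexTorus

end Pool.Agent.Lib.MP_cf103f_co
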