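import Mathlib

set_option autoImplicit false
set_option linter.unusedSectionVars false

/-!
Generic finite-certificate machinery for geometric realisations of finite simplicial complexes.
`V` is a finite vertex set, functionals are abstract objects `Φ` evaluated at vertices by
`ev : Φ → V → ℤ`.
-/

namespace Pool.Agent.Lib.MP_cf103f_co

open Set

variable {V : Type} [Fintype V] [DecidableEq V] {Φ : Type}

/-- The closed cell of the standard simplex on `V` spanned by the vertices in the list `s`. -/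
def cell (s : List V) : Set (V → ℝ) :=
  {b | b ∈ stdSimplex ℝ V ∧ ∀ v, v ∉ s → b v = 0}

/-- weighted sum of integer values -/
def wsum (b : V → ℝ) (g : V → ℤ) : ℝ := ∑ v, b v * (g v : ℝ)

theorem cell_nonneg {s : List V} {b : V → ℝ} (hb : b ∈ cell s) (v : V) : 0 ≤ b v := hb.1.1 v

theorem cell_sum {s : List V} {b : V → ℝ} (hb : b ∈ cell s) : ∑ v, b v = 1 := hb.1.2

theorem cell_mono {s t : List V} (h : ∀ v ∈ s, v ∈ t) : cell s ⊆ cell t := by
  intro b hb
  exact ⟨hb.1, fun v hv => hb.2 v (fun h' => hv (h v h'))⟩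

theorem convex_cell (s : List V) : Convex ℝ (cell s) := by
  intro b hb b' hb' x y hx hy hxy
  refine ⟨convex_stdSimplex ℝ V hb.1 hb'.1 hx hy hxy, fun v hv => ?_⟩
  simp [hb.2 v hv, hb'.2 v hv]

theorem isCompact_cell (s : List V) : IsCompact (cell s) := by
  have h1 : IsClosed {b : V → ℝ | ∀ v, v ∉ s → b v = 0} := by
    have : {b : V → ℝ | ∀ v, v ∉ s → b v = 0} = ⋂ v, {b : V → ℝ | v ∉ s → b v = 0} := by
      ext b; simp
    rw [this]
    refine isClosed_iInter (fun v => ?_)
    by_cases hv : v ∈ s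
    · simp [hv]
    · simp only [hv, not_false_eq_true, forall_const]
      exact isClosed_eq (continuous_apply v) continuous_const
  exact (isCompact_stdSimplex ℝ V).inter_right h1

theorem single_mem_cell {s : List V} {v : V} (hv : v ∈ s) : (Pi.single v 1 : V → ℝ) ∈ cell s := by
  refine ⟨single_mem_stdSimplex ℝ v, fun w hw => ?_⟩
  have : w ≠ v := fun h => hw (h ▸ hv)
  simp [this]

/-- The cell is the convex hull of its unit vectors. -/
theorem cell_eq_convexHull (s : List V) :
    cell s = convexHull ℝ ((fun v : V => (Pi.single v 1 : V → ℝ)) '' {v | v ∈ s}) := by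
  apply Subset.antisymm
  · intro b hb
    have h1 : b = ∑ v ∈ s.toFinset, b v • (Pi.single v 1 : V → ℝ) := by
      funext w
      rw [Finset.sum_apply]
      simp only [Pi.smul_apply, smul_eq_mul, Pi.single_apply, mul_ite, mul_one, mul_zero]
      rw [Finset.sum_ite_eq]
      split_ifs with h
      · rfl
      · exact hb.2 w (by simpa using h)
    have h2 : ∑ v ∈ s.toFinset, b v = 1 := by
      rw [← cell_sum hb]
      apply Finset.sum_subset (Finset.subset_univ _)
      intro v _ hv
      exact hb.2 v (by simpa using hv)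
    rw [h1]
    exact (convex_convexHull ℝ _).sum_mem (fun v _ => cell_nonneg hb v) h2
      (fun v hv => subset_convexHull ℝ _ ⟨v, by simpa using hv, rfl⟩)
  · apply convexHull_min _ (convex_cell s)
    rintro _ ⟨v, hv, rfl⟩
    exact single_mem_cell hv

/-- Convex hull of the positions of a list of vertices. -/
theorem hull_eq_image {E : Type} [AddCommGroup E] [Module ℝ E] (p : V → E) (s : List V) :
    convexHull ℝ (p '' {v | v ∈ s}) = Fintype.linearCombination ℝ p '' cell s := by
  rw [cell_eq_convexHull, LinearMap.image_convexHull]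
  congr 1
  rw [← image_comp]
  apply image_congr
  intro v _
  simp [Fintype.linearCombination_apply, Pi.single_apply]

theorem supp_of_le {s : List V} {g : V → ℤ} {b : V → ℝ} (hb : b ∈ cell s)
    (hg : ∀ v ∈ s, g v ≤ 0) (h : 0 ≤ wsum b g) : ∀ v, g v ≠ 0 → b v = 0 := by
  have hterm : ∀ v ∈ (Finset.univ : Finset V), 0 ≤ -(b v * (g v : ℝ)) := by
    intro v _
    by_cases hv : v ∈ s
    · have h1 : (g v : ℝ) ≤ 0 := by exact_mod_cast hg v hv
      have h2 := cell_nonneg hb v
      nlinarith
    · simp [hb.2 v hv]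
  have hsum : ∑ v, -(b v * (g v : ℝ)) = 0 := by
    apply le_antisymm
    · rw [Finset.sum_neg_distrib]; unfold wsum at h; linarith
    · exact Finset.sum_nonneg hterm
  intro v hv
  have := (Finset.sum_eq_zero_iff_of_nonneg hterm).1 hsum v (Finset.mem_univ v)
  have h3 : b v * (g v : ℝ) = 0 := by linarith
  rcases mul_eq_zero.1 h3 with h4 | h4
  · exact h4
  · exact absurd (by exact_mod_cast h4) hv

theorem supp_of_ge {s : List V} {g : V → ℤ} {b : V → ℝ} (hb : b ∈ cell s)
    (hg : ∀ v ∈ s, 0 ≤ g v) (h : wsum b g ≤ 0) : ∀ v, g v ≠ 0 → b v = 0 := by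
  intro v hv
  refine supp_of_le (g := fun v => - g v) hb (fun v hv => by simpa using hg v hv) ?_ v
    (by simpa using hv)
  have : wsum b (fun v => - g v) = - wsum b g := by
    unfold wsum; rw [← Finset.sum_neg_distrib]; congr 1; funext v; push_cast; ring
  rw [this]; linarith

theorem wsum_nonneg {s : List V} {g : V → ℤ} {b : V → ℝ} (hb : b ∈ cell s)
    (hg : ∀ v ∈ s, 0 ≤ g v) : 0 ≤ wsum b g := by
  apply Finset.sum_nonneg
  intro v _
  by_cases hv : v ∈ s
  · have h1 : (0 : ℝ) ≤ g v := by exact_mod_cast hg v hv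
    exact mul_nonneg (cell_nonneg hb v) h1
  · simp [hb.2 v hv]

theorem wsum_nonpos {s : List V} {g : V → ℤ} {b : V → ℝ} (hb : b ∈ cell s)
    (hg : ∀ v ∈ s, g v ≤ 0) : wsum b g ≤ 0 := by
  have := wsum_nonneg (g := fun v => - g v) hb (fun v hv => by simpa using hg v hv)
  have h2 : wsum b (fun v => - g v) = - wsum b g := by
    unfold wsum; rw [← Finset.sum_neg_distrib]; congr 1; funext v; push_cast; ring
  rw [h2] at this; linarith

/-- The functional with values `g` separates `s` and `t` exactly along the common vertices. -/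
def Sep (s t : List V) (g : V → ℤ) : Prop :=
  (∀ v ∈ s, g v ≤ 0 ∧ (g v = 0 → v ∈ t)) ∧ (∀ v ∈ t, 0 ≤ g v ∧ (g v = 0 → v ∈ s))

instance (s t : List V) (g : V → ℤ) : Decidable (Sep s t g) := by
  unfold Sep; infer_instance

theorem Sep.symm {s t : List V} {g : V → ℤ} (h : Sep s t g) : Sep t s (fun v => - g v) := by
  refine ⟨fun v hv => ⟨?_, fun h0 => ?_⟩, fun v hv => ⟨?_, fun h0 => ?_⟩⟩
  · have := (h.2 v hv).1; show - g v ≤ 0; omega
  · exact (h.2 v hv).2 (by simpa using h0)
  · have := (h.1 v hv).1; show 0 ≤ - g v; omega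
  · exact (h.1 v hv).2 (by simpa using h0)

theorem Sep.refl (s : List V) : Sep s s (fun _ => 0) := by
  refine ⟨fun v hv => ⟨le_refl _, fun _ => hv⟩, fun v hv => ⟨le_refl _, fun _ => hv⟩⟩

/-- Two points of separated cells with equal functional value are supported on the common face. -/
theorem Sep.supp {s t : List V} {g : V → ℤ} (h : Sep s t g) {b b' : V → ℝ}
    (hb : b ∈ cell s) (hb' : b' ∈ cell t) (he : wsum b g = wsum b' g) :
    (∀ v, v ∉ t → b v = 0) ∧ (∀ v, v ∉ s → b' v = 0) := by
  have h1 : wsum b g ≤ 0 := wsum_nonpos hb (fun v hv => (h.1 v hv).1)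
  have h2 : 0 ≤ wsum b' g := wsum_nonneg hb' (fun v hv => (h.2 v hv).1)
  have h3 : wsum b g = 0 := le_antisymm h1 (by rw [he]; exact h2)
  constructor
  · intro v hv
    by_cases hs : v ∈ s
    · refine supp_of_le hb (fun v hv => (h.1 v hv).1) (le_of_eq h3.symm) v ?_
      intro h0; exact hv ((h.1 v hs).2 h0)
    · exact hb.2 v hs
  · intro v hv
    by_cases ht : v ∈ t
    · refine supp_of_ge hb' (fun v hv => (h.2 v hv).1) (le_of_eq (he ▸ h3)) v ?_
      intro h0; exact hv ((h.2 v ht).2 h0)
    · exact hb'.2 v ht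

/-- `ev`-functionals are determined by the image under `L`. -/
def Determined {F : Type} (L : (V → ℝ) → F) (g : V → ℤ) : Prop :=
  ∀ b b' : V → ℝ, ∑ v, b v = 1 → ∑ v, b' v = 1 → L b = L b' → wsum b g = wsum b' g

/-- the points of a realisation -/
def complexSet (T : List (List V)) : Set (V → ℝ) := {b | ∃ t ∈ T, b ∈ cell t}

theorem isCompact_complexSet (T : List (List V)) : IsCompact (complexSet T) := by
  have : complexSet T = ⋃ t ∈ T.toFinset, cell t := by
    ext b; simp [complexSet]
  rw [this]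
  exact T.toFinset.isCompact_biUnion (fun t _ => isCompact_cell t)

theorem injOn_complexSet {F : Type} (L : (V → ℝ) → F) (T : List (List V))
    (hsep : ∀ s ∈ T, ∀ t ∈ T, ∃ g, Sep s t g ∧ Determined L g)
    (hind : ∀ s ∈ T, ∀ v ∈ s, ∃ g : V → ℤ, (∀ w ∈ s, w ≠ v → g w = 0) ∧ g v ≠ 0 ∧ Determined L g) :
    InjOn L (complexSet T) := by
  rintro b ⟨s, hs, hb⟩ b' ⟨t, ht, hb'⟩ he
  obtain ⟨g, hg, hd⟩ := hsep s hs t ht
  have h1 := hg.supp hb hb' (hd b b' (cell_sum hb) (cell_sum hb') he)
  funext v
  by_cases hv : v ∈ s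
  · obtain ⟨g', hg', hne, hd'⟩ := hind s hs v hv
    have h2 := hd' b b' (cell_sum hb) (cell_sum hb') he
    have h3 : ∀ c : V → ℝ, (∀ w, w ∉ s → c w = 0) → wsum c g' = c v * g' v := by
      intro c hc
      unfold wsum
      rw [Finset.sum_eq_single v]
      · intro w _ hw
        by_cases hws : w ∈ s
        · rw [hg' w hws hw]; simp
        · rw [hc w hws]; simp
      · intro h; exact absurd (Finset.mem_univ v) h
    rw [h3 b hb.2, h3 b' h1.2] at h2
    have h4 : (g' v : ℝ) ≠ 0 := by exact_mod_cast hne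
    exact mul_right_cancel₀ h4 h2
  · rw [hb.2 v hv, h1.2 v hv]

/-- Homeomorphism of the complex onto its image. -/
noncomputable def imageHomeo {F : Type} [TopologicalSpace F] [T2Space F]
    (L : (V → ℝ) → F) (hL : Continuous L) (T : List (List V))
    (hinj : InjOn L (complexSet T)) : complexSet T ≃ₜ ↥(L '' complexSet T) := by
  haveI : CompactSpace (complexSet T) := isCompact_iff_compactSpace.1 (isCompact_complexSet T)
  let e : complexSet T ≃ ↥(L '' complexSet T) := Equiv.ofBijective
    (fun b => ⟨L b.1, b.1, b.2, rfl⟩)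
    ⟨fun b b' h => Subtype.ext (hinj b.2 b'.2 (congrArg Subtype.val h)),
     fun y => by
      obtain ⟨y, b, hb, rfl⟩ := y
      exact ⟨⟨b, hb⟩, rfl⟩⟩
  have hc : Continuous e := (hL.comp continuous_subtype_val).subtype_mk _
  exact hc.homeoOfEquivCompactToT2

/-! ### Covering certificates -/

/-- One step of a covering certificate: the triangle `u v w`, with `a` the functional vanishing on
`u, v` and `c` the functional vanishing on `u, w`. -/
def StepOK (coords : List (V → ℤ)) (Q : List V) (a c : V → ℤ) (u v w : V) : Prop :=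
  0 < a w ∧ c v < 0 ∧ ∀ x ∈ Q,
    a w * c v - a w * c x - c v * a x ≤ 0 ∧
    ∀ ψ ∈ coords, a w * c v * (ψ x - ψ u) = a w * c x * (ψ v - ψ u) + c v * a x * (ψ w - ψ u)

instance (coords : List (V → ℤ)) (Q : List V) (a c : V → ℤ) (u v w : V) :
    Decidable (StepOK coords Q a c u v w) := by
  unfold StepOK; infer_instance

theorem wsum_three (u v w : V) (x y z : ℝ) (g : V → ℤ) :
    wsum (x • (Pi.single u 1 : V → ℝ) + y • (Pi.single v 1 : V → ℝ)
      + z • (Pi.single w 1 : V → ℝ)) g = x * g u + y * g v + z * g w := by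
  unfold wsum
  simp only [Pi.add_apply, Pi.smul_apply, Pi.single_apply, smul_eq_mul, mul_ite, mul_one, mul_zero,
    add_mul, ite_mul, zero_mul, Finset.sum_add_distrib]
  simp

theorem step_cover {F : Type} (L : (V → ℝ) → F) (coords : List (V → ℤ))
    (hL : ∀ b b' : V → ℝ, ∑ v, b v = 1 → ∑ v, b' v = 1 →
      (∀ ψ ∈ coords, wsum b ψ = wsum b' ψ) → L b = L b')
    {Q t : List V} {a c : V → ℤ} {u v w : V} (h : StepOK coords Q a c u v w)
    (hu : u ∈ t) (hv : v ∈ t) (hw : w ∈ t) {b : V → ℝ} (hb : b ∈ cell Q)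
    (ha : 0 ≤ wsum b a) (hc : wsum b c ≤ 0) : ∃ b' ∈ cell t, L b' = L b := by
  obtain ⟨h1, h2, h3⟩ := h
  have h1' : (0 : ℝ) < a w := by exact_mod_cast h1
  have h2' : (c v : ℝ) < 0 := by exact_mod_cast h2
  set lw : ℝ := wsum b a / a w with hlw
  set lv : ℝ := wsum b c / c v with hlv
  have hlw0 : 0 ≤ lw := div_nonneg ha h1'.le
  have hlv0 : 0 ≤ lv := div_nonneg_of_nonpos hc h2'.le
  have hb1 : ∑ x, b x = 1 := cell_sum hb
  -- the linear combination identity
  have key : ∀ (f : V → ℤ), (∀ x ∈ Q, f x ≤ 0) → wsum b f ≤ 0 := fun f hf => wsum_nonpos hb hf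
  have hlu0 : 0 ≤ 1 - lv - lw := by
    have h4 : wsum b (fun x => a w * c v - a w * c x - c v * a x) ≤ 0 :=
      key _ (fun x hx => (h3 x hx).1)
    have h5 : wsum b (fun x => a w * c v - a w * c x - c v * a x)
        = (a w * c v : ℝ) * (1 - lv - lw) := by
      have e1 : wsum b (fun x => a w * c v - a w * c x - c v * a x)
          = (a w * c v : ℝ) * (∑ x, b x) - a w * wsum b c - c v * wsum b a := by
        unfold wsum
        rw [Finset.mul_sum, Finset.mul_sum, Finset.mul_sum, ← Finset.sum_sub_distrib,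
          ← Finset.sum_sub_distrib]
        congr 1; funext x; push_cast; ring
      have h8 : (a w : ℝ) ≠ 0 := h1'.ne'
      have h9 : (c v : ℝ) ≠ 0 := h2'.ne
      have e7 : lw * (a w : ℝ) = wsum b a := by rw [hlw]; field_simp
      have e8 : lv * (c v : ℝ) = wsum b c := by rw [hlv]; field_simp
      rw [e1, hb1, ← e7, ← e8]
      ring
    rw [h5] at h4
    have h6 : (a w * c v : ℝ) < 0 := mul_neg_of_pos_of_neg h1' h2'
    nlinarith
  refine ⟨(1 - lv - lw) • (Pi.single u 1 : V → ℝ) + lv • (Pi.single v 1 : V → ℝ)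
      + lw • (Pi.single w 1 : V → ℝ), ?_, ?_⟩
  · have hcx := convex_cell t
    have := hcx.sum_mem (t := (Finset.univ : Finset (Fin 3))) (w := ![1 - lv - lw, lv, lw])
      (z := ![(Pi.single u 1 : V → ℝ), (Pi.single v 1 : V → ℝ), (Pi.single w 1 : V → ℝ)])
      (by intro i _; fin_cases i <;> simp <;> linarith)
      (by simp [Fin.sum_univ_three]; ring)
      (by intro i _; fin_cases i
          · exact single_mem_cell hu
          · exact single_mem_cell hv
          · exact single_mem_cell hw)
    simpa [Fin.sum_univ_three] using this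
  · apply hL
    · simp [Finset.sum_add_distrib, Pi.single_apply]; ring
    · exact hb1
    · intro ψ hψ
      rw [wsum_three]
      have e2 : (a w * c v : ℝ) * (wsum b ψ - ψ u) = a w * wsum b c * (ψ v - ψ u)
          + c v * wsum b a * (ψ w - ψ u) := by
        have e3 : ∀ x, b x * ((a w * c v : ℝ) * (ψ x - ψ u))
            = b x * (a w * c x * (ψ v - ψ u) + c v * a x * (ψ w - ψ u)) := by
          intro x
          by_cases hx : x ∈ Q
          · have := (h3 x hx).2 ψ hψ
            have h7 : ((a w * c v * (ψ x - ψ u) : ℤ) : ℝ)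
              = ((a w * c x * (ψ v - ψ u) + c v * a x * (ψ w - ψ u) : ℤ) : ℝ) := by rw [this]
            push_cast at h7
            rw [h7]
          · rw [hb.2 x hx]; simp
        have e4 := Finset.sum_congr (rfl : (Finset.univ : Finset V) = Finset.univ)
          (fun x _ => e3 x)
        have e5 : ∑ x, b x * ((a w * c v : ℝ) * (ψ x - ψ u))
            = (a w * c v : ℝ) * (wsum b ψ - ψ u * ∑ x, b x) := by
          unfold wsum
          rw [Finset.mul_sum, ← Finset.sum_sub_distrib, Finset.mul_sum]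
          congr 1; funext x; ring
        have e6 : ∑ x, b x * (a w * c x * (ψ v - ψ u) + c v * a x * (ψ w - ψ u) : ℝ)
            = a w * wsum b c * (ψ v - ψ u) + c v * wsum b a * (ψ w - ψ u) := by
          unfold wsum
          rw [Finset.mul_sum, Finset.mul_sum, Finset.sum_mul, Finset.sum_mul,
            ← Finset.sum_add_distrib]
          congr 1; funext x; ring
        rw [e5, e6, hb1] at e4
        linarith
      have h8 : (a w : ℝ) ≠ 0 := h1'.ne'
      have h9 : (c v : ℝ) ≠ 0 := h2'.ne
      have h10 : (a w * c v : ℝ) ≠ 0 := mul_ne_zero h8 h9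
      apply mul_left_cancel₀ h10
      have e7 : lw * (a w : ℝ) = wsum b a := by rw [hlw]; field_simp
      have e8 : lv * (c v : ℝ) = wsum b c := by rw [hlv]; field_simp
      rw [← e7, ← e8] at e2
      linear_combination -e2

/-- A covering certificate for the polygon `Q`: consecutive triangles `u v w` separated by the
functionals `a, c, ...`. -/
def Chain (T : List (List V)) (coords : List (V → ℤ)) (Q : List V) :
    (V → ℤ) → List ((V × V × V) × (V → ℤ)) → Prop
  | a, [] => ∀ x ∈ Q, a x ≤ 0
  | a, s :: l => (∃ t ∈ T, s.1.1 ∈ t ∧ s.1.2.1 ∈ t ∧ s.1.2.2 ∈ t) ∧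
      StepOK coords Q a s.2 s.1.1 s.1.2.1 s.1.2.2 ∧ Chain T coords Q s.2 l

/-- Boolean version of `Chain`. -/
def chainB (T : List (List V)) (coords : List (V → ℤ)) (Q : List V) :
    (V → ℤ) → List ((V × V × V) × (V → ℤ)) → Bool
  | a, [] => decide (∀ x ∈ Q, a x ≤ 0)
  | a, s :: l => decide (∃ t ∈ T, s.1.1 ∈ t ∧ s.1.2.1 ∈ t ∧ s.1.2.2 ∈ t) &&
      decide (StepOK coords Q a s.2 s.1.1 s.1.2.1 s.1.2.2) && chainB T coords Q s.2 l

theorem chain_of_chainB (T : List (List V)) (coords : List (V → ℤ)) (Q : List V) :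
    ∀ (l : List ((V × V × V) × (V → ℤ))) (a : V → ℤ), chainB T coords Q a l = true →
      Chain T coords Q a l
  | [], a, h => by simpa [chainB, Chain] using h
  | s :: l, a, h => by
      simp only [chainB, Bool.and_eq_true, decide_eq_true_eq] at h
      exact ⟨h.1.1, h.1.2, chain_of_chainB T coords Q l s.2 h.2⟩

theorem cover_aux {F : Type} (L : (V → ℝ) → F) (coords : List (V → ℤ))
    (hL : ∀ b b' : V → ℝ, ∑ v, b v = 1 → ∑ v, b' v = 1 →
      (∀ ψ ∈ coords, wsum b ψ = wsum b' ψ) → L b = L b')
    (T : List (List V)) (Q : List V) {b : V → ℝ} (hb : b ∈ cell Q) :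
    ∀ (l : List ((V × V × V) × (V → ℤ))) (a : V → ℤ), Chain T coords Q a l →
      0 ≤ wsum b a → (l = [] → 0 < wsum b a) → L b ∈ L '' complexSet T
  | [], a, h, _, h1 => by
      exact absurd (wsum_nonpos hb h) (not_le.2 (h1 rfl))
  | s :: l, a, h, h0, _ => by
      obtain ⟨⟨t, ht, hu, hv, hw⟩, h2, h3⟩ := h
      by_cases hc : wsum b s.2 ≤ 0
      · obtain ⟨b', hb', he⟩ := step_cover L coords hL h2 hu hv hw hb h0 hc
        exact ⟨b', ⟨t, ht, hb'⟩, he⟩
      · exact cover_aux L coords hL T Q hb l s.2 h3 (not_le.1 hc).le (fun _ => not_le.1 hc)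

theorem cover_image {F : Type} (L : (V → ℝ) → F) (coords : List (V → ℤ))
    (hL : ∀ b b' : V → ℝ, ∑ v, b v = 1 → ∑ v, b' v = 1 →
      (∀ ψ ∈ coords, wsum b ψ = wsum b' ψ) → L b = L b')
    (T : List (List V)) (Q : List V) (a : V → ℤ) (l : List ((V × V × V) × (V → ℤ)))
    (ha : ∀ x ∈ Q, 0 ≤ a x) (hl : l ≠ []) (h : Chain T coords Q a l) :
    L '' cell Q ⊆ L '' complexSet T := by
  rintro _ ⟨b, hb, rfl⟩
  exact cover_aux L coords hL T Q hb l a h (wsum_nonneg hb ha) (fun h' => absurd h' hl)

/-- Pairwise separation check for a list of cells against a table of functionals. -/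
def pairB (ev : Φ → V → ℤ) : List (List V) → List (List Φ) → Bool
  | [], _ => true
  | t :: ts, row :: rows =>
      decide (ts.length = row.length) &&
        (List.zip ts row).all (fun p => decide (Sep t p.1 (ev p.2))) && pairB ev ts rows
  | _ :: _, [] => false

theorem pairwise_of_pairB (ev : Φ → V → ℤ) :
    ∀ (ts : List (List V)) (rows : List (List Φ)), pairB ev ts rows = true →
      ts.Pairwise (fun s t => ∃ φ, Sep s t (ev φ))
  | [], _, _ => List.Pairwise.nil
  | t :: ts, row :: rows, h => by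
      simp only [pairB, Bool.and_eq_true, decide_eq_true_eq, List.all_eq_true] at h
      refine List.Pairwise.cons ?_ (pairwise_of_pairB ev ts rows h.2)
      intro s hs
      obtain ⟨i, hi, rfl⟩ := List.getElem_of_mem hs
      have hi2 : i < row.length := h.1.1 ▸ hi
      refine ⟨row[i], h.1.2 (ts[i], row[i]) ?_⟩
      have hz : i < (ts.zip row).length := by simp [hi, hi2]
      have := List.getElem_mem hz
      rwa [List.getElem_zip] at this
  | _ :: _, [], h => by simp [pairB] at h

/-- Check of the isolating functionals of each cell of a list. -/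
def indB (ev : Φ → V → ℤ) : List (List V) → List (List Φ) → Bool
  | [], _ => true
  | t :: ts, row :: rows =>
      decide (t.length = row.length) &&
        (List.zip t row).all (fun p => decide ((∀ w ∈ t, w ≠ p.1 → ev p.2 w = 0) ∧ ev p.2 p.1 ≠ 0))
        && indB ev ts rows
  | _ :: _, [] => false

theorem ind_of_indB (ev : Φ → V → ℤ) :
    ∀ (ts : List (List V)) (rows : List (List Φ)), indB ev ts rows = true →
      ∀ t ∈ ts, ∀ v ∈ t, ∃ φ, (∀ w ∈ t, w ≠ v → ev φ w = 0) ∧ ev φ v ≠ 0
  | [], _, _ => by simp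
  | t :: ts, row :: rows, h => by
      simp only [indB, Bool.and_eq_true, decide_eq_true_eq, List.all_eq_true] at h
      intro s hs
      rcases List.mem_cons.1 hs with rfl | hs
      · intro v hv
        obtain ⟨i, hi, rfl⟩ := List.getElem_of_mem hv
        have hi2 : i < row.length := h.1.1 ▸ hi
        refine ⟨row[i], h.1.2 (s[i], row[i]) ?_⟩
        have hz : i < (s.zip row).length := by simp [hi, hi2]
        have := List.getElem_mem hz
        rwa [List.getElem_zip] at this
      · exact ind_of_indB ev ts rows h.2 s hs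
  | _ :: _, [], h => by simp [indB] at h

end Pool.Agent.Lib.MP_cf103f_co
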