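import Pool.Agent.Lib.MP_cf103f_co.Checks

set_option autoImplicit false

namespace Pool.Agent.Lib.MP_cf103f_co

open Set

/-- Euclidean three-space -/
abbrev E3 : Type := EuclideanSpace ℝ (Fin 3)

/-- position of a vertex in space -/
noncomputable def P3 (v : Vx) : E3 := !₂[((pos v).1 : ℝ), ((pos v).2.1 : ℝ), ((pos v).2.2 : ℝ)]

/-- linear realisation map in space -/
noncomputable def L3 : (Vx → ℝ) →ₗ[ℝ] E3 := Fintype.linearCombination ℝ P3

theorem L3_apply (b : Vx → ℝ) (i : Fin 3) : (L3 b) i = ∑ v, b v * (P3 v) i := by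
  unfold L3
  rw [Fintype.linearCombination_apply]
  simp

theorem L3_0 (b : Vx → ℝ) : (L3 b) 0 = wsum b (fun v => (pos v).1) := by
  rw [L3_apply]; simp [P3, wsum]

theorem L3_1 (b : Vx → ℝ) : (L3 b) 1 = wsum b (fun v => (pos v).2.1) := by
  rw [L3_apply]; simp [P3, wsum]

theorem L3_2 (b : Vx → ℝ) : (L3 b) 2 = wsum b (fun v => (pos v).2.2) := by
  rw [L3_apply]; simp [P3, wsum]

theorem continuous_L3 : Continuous L3 := LinearMap.continuous_of_finiteDimensional L3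

/-- the linear part of an affine functional -/
noncomputable def lin (f : ℤ × ℤ × ℤ × ℤ) : E3 →L[ℝ] ℝ :=
  (f.1 : ℝ) • EuclideanSpace.proj 0 + (f.2.1 : ℝ) • EuclideanSpace.proj 1
    + (f.2.2.1 : ℝ) • EuclideanSpace.proj 2

theorem lin_apply (f : ℤ × ℤ × ℤ × ℤ) (x : E3) :
    lin f x = f.1 * x 0 + f.2.1 * x 1 + f.2.2.1 * x 2 := by
  simp [lin]

theorem wsum_ev3 (f : ℤ × ℤ × ℤ × ℤ) (b : Vx → ℝ) (hb : ∑ v, b v = 1) :
    wsum b (ev3 f) = lin f (L3 b) + f.2.2.2 := by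
  rw [lin_apply, L3_0, L3_1, L3_2]
  have h : (f.2.2.2 : ℝ) = f.2.2.2 * ∑ v, b v := by rw [hb]; ring
  rw [h]
  unfold wsum ev3
  rw [Finset.mul_sum, Finset.mul_sum, Finset.mul_sum, Finset.mul_sum, ← Finset.sum_add_distrib,
    ← Finset.sum_add_distrib, ← Finset.sum_add_distrib]
  congr 1; funext v; push_cast; ring

theorem determined3 (f : ℤ × ℤ × ℤ × ℤ) : Determined (L3 : (Vx → ℝ) → E3) (ev3 f) := by
  intro b b' hb hb' h
  rw [wsum_ev3 f b hb, wsum_ev3 f b' hb', h]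

theorem detect3 (b b' : Vx → ℝ) (_ : ∑ v, b v = 1) (_ : ∑ v, b' v = 1)
    (h : ∀ ψ ∈ coords3, wsum b ψ = wsum b' ψ) : L3 b = L3 b' := by
  ext i
  fin_cases i
  · show (L3 b) 0 = (L3 b') 0
    rw [L3_0, L3_0]; exact h _ (by simp [coords3])
  · show (L3 b) 1 = (L3 b') 1
    rw [L3_1, L3_1]; exact h _ (by simp [coords3])
  · show (L3 b) 2 = (L3 b') 2
    rw [L3_2, L3_2]; exact h _ (by simp [coords3])

/-- negation of a functional -/
def negF (f : ℤ × ℤ × ℤ × ℤ) : ℤ × ℤ × ℤ × ℤ := (-f.1, -f.2.1, -f.2.2.1, -f.2.2.2)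

theorem ev3_negF (f : ℤ × ℤ × ℤ × ℤ) : ev3 (negF f) = fun v => - ev3 f v := by
  funext v; simp only [ev3, negF]; ring

theorem ev3_zero : ev3 (0, 0, 0, 0) = fun _ => 0 := by
  funext v; simp [ev3]

theorem sep3_forall (Ls : List (List Vx)) (rows : List (List (ℤ × ℤ × ℤ × ℤ)))
    (h : pairB ev3 Ls rows = true) : ∀ s ∈ Ls, ∀ t ∈ Ls, ∃ f, Sep s t (ev3 f) := by
  have h1 := pairwise_of_pairB ev3 Ls rows h
  haveI : Std.Symm (fun s t : List Vx => ∃ f, Sep s t (ev3 f)) := by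
    refine ⟨?_⟩
    rintro s t ⟨f, hf⟩
    exact ⟨negF f, by rw [ev3_negF]; exact hf.symm⟩
  refine fun s hs t ht => List.Pairwise.forall_of_forall
    (R := fun s t => ∃ f, Sep s t (ev3 f)) ?_ h1 hs ht
  intro s _
  exact ⟨(0, 0, 0, 0), by rw [ev3_zero]; exact Sep.refl s⟩

theorem injOn_L3 : InjOn L3 (complexSet tris) := by
  apply injOn_complexSet
  · intro s hs t ht
    obtain ⟨f, hf⟩ := sep3_forall tris sep3 sep3_ok s hs t ht
    exact ⟨ev3 f, hf, determined3 f⟩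
  · intro s hs v hv
    obtain ⟨f, hf⟩ := ind_of_indB ev3 tris ind3 ind3_ok s hs v hv
    exact ⟨ev3 f, hf.1, hf.2, determined3 f⟩

theorem cover3 (Q : List Vx) (hQ : Q ∈ faces) : L3 '' cell Q ⊆ L3 '' complexSet tris := by
  rw [← cov3_fst] at hQ
  obtain ⟨c, hc, rfl⟩ := List.mem_map.1 hQ
  obtain ⟨h1, h2, h3⟩ := cov3_ok c hc
  refine cover_image L3 coords3 detect3 tris c.1 _ _ h1 ?_ (chain_of_chainB _ _ _ _ _ h3)
  intro h; apply h2; simpa using h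

theorem union3 : (⋃ Q ∈ faces, L3 '' cell Q) = L3 '' complexSet tris := by
  apply Subset.antisymm
  · exact iUnion₂_subset cover3
  · rintro _ ⟨b, ⟨t, ht, hb⟩, rfl⟩
    obtain ⟨f, hf, hs⟩ := tris_sub t ht
    exact mem_iUnion₂.2 ⟨f, hf, b, cell_mono hs hb, rfl⟩

end Pool.Agent.Lib.MP_cf103f_co
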